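import Mathlib

/-!
Cut-off functions and the log-derivative profile `w`.
-/

open Set Filter Topology
open scoped ContDiff

namespace Pool.Agent.H3R2

/-- iterated derivatives of a smooth function -/
lemma contDiff_iter {f : ℝ → ℝ} (hf : ContDiff ℝ ∞ f) (j : ℕ) : ContDiff ℝ ∞ (deriv^[j] f) := by
  induction j with
  | zero => simpa using hf
  | succ j ih =>
    rw [Function.iterate_succ_apply']
    exact (contDiff_infty_iff_deriv.mp ih).2

lemma hasDerivAt_iter {f : ℝ → ℝ} (hf : ContDiff ℝ ∞ f) (j : ℕ) (s : ℝ) :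
    HasDerivAt (deriv^[j] f) (deriv^[j + 1] f s) s := by
  rw [Function.iterate_succ_apply']
  exact ((contDiff_infty_iff_deriv.mp (contDiff_iter hf j)).1 s).hasDerivAt

lemma iter_congr {f g : ℝ → ℝ} {s : ℝ} (h : f =ᶠ[𝓝 s] g) (j : ℕ) :
    deriv^[j] f =ᶠ[𝓝 s] deriv^[j] g := by
  induction j with
  | zero => simpa using h
  | succ j ih =>
    rw [Function.iterate_succ_apply', Function.iterate_succ_apply']
    exact ih.deriv

lemma iter_const (c : ℝ) (j : ℕ) (hj : 1 ≤ j) (s : ℝ) : deriv^[j] (fun _ : ℝ => c) s = 0 := by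
  obtain ⟨k, rfl⟩ := Nat.exists_eq_add_of_le' hj
  induction k with
  | zero => simp
  | succ k ih =>
    have : deriv^[k + 1] (fun _ : ℝ => c) = fun _ => 0 := by
      clear ih hj
      induction k with
      | zero => funext s; simp
      | succ k ih =>
        rw [Function.iterate_succ_apply', ih]
        funext s
        simp
    rw [Function.iterate_succ_apply', this]
    simp

lemma iter_id (j : ℕ) (hj : 2 ≤ j) (s : ℝ) : deriv^[j] (fun x : ℝ => x) s = 0 := by
  obtain ⟨k, rfl⟩ := Nat.exists_eq_add_of_le' hj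
  have h1 : deriv (fun x : ℝ => x) = fun _ => 1 := by
    funext s
    exact deriv_id s
  rw [show k + 2 = (k + 1) + 1 from rfl, Function.iterate_succ_apply, h1]
  exact iter_const 1 (k + 1) (by omega) s

lemma iter_bounded {f : ℝ → ℝ} (hf : ContDiff ℝ ∞ f) (R : ℝ)
    (h0 : ∀ s, R < |s| → f =ᶠ[𝓝 s] fun _ => 0) (j : ℕ) : ∃ K, ∀ s, |deriv^[j] f s| ≤ K := by
  obtain ⟨K, hK⟩ := (isCompact_Icc (a := -R) (b := R)).exists_bound_of_continuousOn
    (contDiff_iter hf j).continuous.continuousOn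
  refine ⟨max K 0, fun s => ?_⟩
  by_cases hs : |s| ≤ R
  · exact le_trans (hK s (abs_le.mp hs)) (le_max_left _ _)
  · push Not at hs
    rw [(iter_congr (h0 s hs) j).eq_of_nhds]
    rcases Nat.eq_zero_or_pos j with rfl | hj
    · simp
    · rw [iter_const 0 j hj]
      simp

/-- The two cut-off functions of the construction. -/
structure Prof where
  φ : ℝ → ℝ
  χ : ℝ → ℝ
  hφ : ContDiff ℝ ∞ φ
  hχ : ContDiff ℝ ∞ χ
  φ_in : ∀ s, |s| < 1 → φ =ᶠ[𝓝 s] fun s => s
  φ_out : ∀ s, 3 / 2 < |s| → φ =ᶠ[𝓝 s] fun _ => 0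
  χ_in : ∀ s, |s| < 2 → χ =ᶠ[𝓝 s] fun _ => 1
  χ_out : ∀ s, 5 / 2 < |s| → χ =ᶠ[𝓝 s] fun _ => 0
  K : ℝ
  one_le_K : 1 ≤ K
  bφ : ∀ j ≤ 4, ∀ s, |deriv^[j] φ s| ≤ K
  bχ : ∀ j ≤ 4, ∀ s, |deriv^[j] χ s| ≤ K

lemma exists_prof : Nonempty Prof := by
  let b1 : ContDiffBump (0 : ℝ) := ⟨1, 3 / 2, by norm_num, by norm_num⟩
  let b2 : ContDiffBump (0 : ℝ) := ⟨2, 5 / 2, by norm_num, by norm_num⟩
  have hb1 : ContDiff ℝ ∞ (b1 : ℝ → ℝ) := b1.contDiff
  have hb2 : ContDiff ℝ ∞ (b2 : ℝ → ℝ) := b2.contDiff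
  have hφ : ContDiff ℝ ∞ (fun s => s * b1 s) := contDiff_id.mul hb1
  have h1 : ∀ s, |s| < 1 → (fun s => s * b1 s) =ᶠ[𝓝 s] fun s => s := by
    intro s hs
    have : ∀ᶠ s' in 𝓝 s, |s'| < 1 := (continuous_abs.tendsto s).eventually (gt_mem_nhds hs)
    filter_upwards [this] with s' hs'
    rw [b1.one_of_mem_closedBall, mul_one]
    simp only [Metric.mem_closedBall, dist_zero_right, Real.norm_eq_abs]
    exact hs'.le
  have h2 : ∀ s, 3 / 2 < |s| → (fun s => s * b1 s) =ᶠ[𝓝 s] fun _ => 0 := by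
    intro s hs
    have : ∀ᶠ s' in 𝓝 s, 3 / 2 < |s'| := (continuous_abs.tendsto s).eventually (lt_mem_nhds hs)
    filter_upwards [this] with s' hs'
    rw [b1.zero_of_le_dist, mul_zero]
    simp only [dist_zero_right, Real.norm_eq_abs]
    exact hs'.le
  have h3 : ∀ s, |s| < 2 → (b2 : ℝ → ℝ) =ᶠ[𝓝 s] fun _ => 1 := by
    intro s hs
    have : ∀ᶠ s' in 𝓝 s, |s'| < 2 := (continuous_abs.tendsto s).eventually (gt_mem_nhds hs)
    filter_upwards [this] with s' hs'
    rw [b2.one_of_mem_closedBall]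
    simp only [Metric.mem_closedBall, dist_zero_right, Real.norm_eq_abs]
    exact hs'.le
  have h4 : ∀ s, 5 / 2 < |s| → (b2 : ℝ → ℝ) =ᶠ[𝓝 s] fun _ => 0 := by
    intro s hs
    have : ∀ᶠ s' in 𝓝 s, 5 / 2 < |s'| := (continuous_abs.tendsto s).eventually (lt_mem_nhds hs)
    filter_upwards [this] with s' hs'
    rw [b2.zero_of_le_dist]
    simp only [dist_zero_right, Real.norm_eq_abs]
    exact hs'.le
  choose K1 hK1 using iter_bounded hφ (3 / 2) h2
  choose K2 hK2 using iter_bounded hb2 (5 / 2) h4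
  let K : ℝ := 1 + ∑ j ∈ Finset.range 5, |K1 j| + ∑ j ∈ Finset.range 5, |K2 j|
  have hs1 : 0 ≤ ∑ j ∈ Finset.range 5, |K1 j| := Finset.sum_nonneg fun _ _ => abs_nonneg _
  have hs2 : 0 ≤ ∑ j ∈ Finset.range 5, |K2 j| := Finset.sum_nonneg fun _ _ => abs_nonneg _
  refine ⟨⟨fun s => s * b1 s, b2, hφ, hb2, h1, h2, h3, h4, K, by simp only [K]; linarith, ?_, ?_⟩⟩
  · intro j hj s
    have h5 : |K1 j| ≤ ∑ j ∈ Finset.range 5, |K1 j| :=
      Finset.single_le_sum (f := fun j => |K1 j|) (fun _ _ => abs_nonneg _)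
        (Finset.mem_range.mpr (by omega))
    have := hK1 j s
    have := le_abs_self (K1 j)
    simp only [K]
    linarith
  · intro j hj s
    have h5 : |K2 j| ≤ ∑ j ∈ Finset.range 5, |K2 j| :=
      Finset.single_le_sum (f := fun j => |K2 j|) (fun _ _ => abs_nonneg _)
        (Finset.mem_range.mpr (by omega))
    have := hK2 j s
    have := le_abs_self (K2 j)
    simp only [K]
    linarith

/-- Existence of the log-derivative profile. -/
lemma exists_w (E : ℝ) (hE : 1 ≤ E) : ∃ w : ℝ → ℝ, ContDiff ℝ ∞ w ∧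
    (∀ s, |s| < 3 → w =ᶠ[𝓝 s] fun s => -E * s) ∧
    (∀ s, 3 ≤ |s| → 0 ≤ deriv w s + w s ^ 2 - 1) ∧
    (∀ s, 4 ≤ s → w s = -1) ∧ (∀ s, s ≤ -4 → w s = 1) := by
  let f : ℝ → ℝ := Real.smoothTransition
  have hf : ContDiff ℝ ∞ f := Real.smoothTransition.contDiff
  let σ : ℝ → ℝ := fun s => 2 * f ((s + 1) / 2) - 1
  let w : ℝ → ℝ := fun s => -(σ s + f (4 - s) * f (4 + s) * (E * s - σ s))
  have hσ : ContDiff ℝ ∞ σ := by
    apply ContDiff.sub _ contDiff_const
    apply contDiff_const.mul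
    exact hf.comp ((contDiff_id.add contDiff_const).div_const _)
  have hw : ContDiff ℝ ∞ w := by
    apply ContDiff.neg
    apply hσ.add
    apply ContDiff.mul
    · apply ContDiff.mul
      · exact hf.comp (contDiff_const.sub contDiff_id)
      · exact hf.comp (contDiff_const.add contDiff_id)
    · exact (contDiff_const.mul contDiff_id).sub hσ
  have hσ1 : ∀ s, 1 ≤ s → σ s = 1 := by
    intro s hs
    simp only [σ, f]
    rw [Real.smoothTransition.one_of_one_le (by linarith)]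
    norm_num
  have hσ2 : ∀ s, s ≤ -1 → σ s = -1 := by
    intro s hs
    simp only [σ, f]
    rw [Real.smoothTransition.zero_of_nonpos (by linarith)]
    norm_num
  have hf1 : ∀ s, 1 ≤ s → f s = 1 := fun s hs => Real.smoothTransition.one_of_one_le hs
  have hf0 : ∀ s, s ≤ 0 → f s = 0 := fun s hs => Real.smoothTransition.zero_of_nonpos hs
  have hfn : ∀ s, 0 ≤ f s := fun s => Real.smoothTransition.nonneg s
  have hfd : ∀ s, HasDerivAt f (deriv f s) s := fun s =>
    ((contDiff_infty_iff_deriv.mp hf).1 s).hasDerivAt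
  have hfm : ∀ s, 0 ≤ deriv f s := fun s => Real.smoothTransition.monotone.deriv_nonneg
  refine ⟨w, hw, ?_, ?_, ?_, ?_⟩
  · intro s hs
    have : ∀ᶠ s' in 𝓝 s, |s'| < 3 := (continuous_abs.tendsto s).eventually (gt_mem_nhds hs)
    filter_upwards [this] with s' hs'
    rw [abs_lt] at hs'
    simp only [w]
    rw [hf1 (4 - s') (by linarith), hf1 (4 + s') (by linarith)]
    ring
  · intro s hs
    rcases le_abs.mp hs with hs | hs
    · have h1 : w =ᶠ[𝓝 s] fun s => -(1 + f (4 - s) * (E * s - 1)) := by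
        have : ∀ᶠ s' in 𝓝 s, 1 < s' := lt_mem_nhds (by linarith)
        filter_upwards [this] with s' hs'
        simp only [w]
        rw [hσ1 s' hs'.le, hf1 (4 + s') (by linarith)]
        ring
      have h2 : HasDerivAt (fun s => -(1 + f (4 - s) * (E * s - 1)))
          (-((deriv f (4 - s) * (-1)) * (E * s - 1) + f (4 - s) * E)) s := by
        have h3 : HasDerivAt (fun s : ℝ => 4 - s) (-1) s := by
          simpa using (hasDerivAt_id s).const_sub 4
        have h4 := (hfd (4 - s)).comp s h3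
        have h5 : HasDerivAt (fun s : ℝ => E * s - 1) E s := by
          simpa using ((hasDerivAt_id s).const_mul E).sub_const 1
        have h6 := ((h4.mul h5).const_add 1).neg
        exact h6
      rw [h1.deriv_eq, h2.deriv, h1.eq_of_nhds]
      have h3 := hfm (4 - s)
      have h4 := hfn (4 - s)
      have h5 : 0 ≤ E * s - 1 := by nlinarith
      have h6 : 0 ≤ 2 * (E * s - 1) - E := by nlinarith
      have h7 := mul_nonneg h3 h5
      have h8 := mul_nonneg h4 h6
      nlinarith [sq_nonneg (f (4 - s) * (E * s - 1))]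
    · have h1 : w =ᶠ[𝓝 s] fun s => -(-1 + f (4 + s) * (E * s + 1)) := by
        have : ∀ᶠ s' in 𝓝 s, s' < -1 := gt_mem_nhds (by linarith)
        filter_upwards [this] with s' hs'
        simp only [w]
        rw [hσ2 s' hs'.le, hf1 (4 - s') (by linarith)]
        ring
      have h2 : HasDerivAt (fun s => -(-1 + f (4 + s) * (E * s + 1)))
          (-((deriv f (4 + s) * 1) * (E * s + 1) + f (4 + s) * E)) s := by
        have h3 : HasDerivAt (fun s : ℝ => 4 + s) 1 s := by
          simpa using (hasDerivAt_id s).const_add 4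
        have h4 := (hfd (4 + s)).comp s h3
        have h5 : HasDerivAt (fun s : ℝ => E * s + 1) E s := by
          simpa using ((hasDerivAt_id s).const_mul E).add_const 1
        have h6 := ((h4.mul h5).const_add (-1)).neg
        exact h6
      rw [h1.deriv_eq, h2.deriv, h1.eq_of_nhds]
      have h3 := hfm (4 + s)
      have h4 := hfn (4 + s)
      have h5 : 0 ≤ -(E * s + 1) := by nlinarith
      have h6 : 0 ≤ 2 * (-(E * s + 1)) - E := by nlinarith
      have h7 := mul_nonneg h3 h5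
      have h8 := mul_nonneg h4 h6
      nlinarith [sq_nonneg (f (4 + s) * (E * s + 1))]
  · intro s hs
    simp only [w]
    rw [hσ1 s (by linarith), hf0 (4 - s) (by linarith)]
    ring
  · intro s hs
    simp only [w]
    rw [hσ2 s (by linarith), hf0 (4 + s) (by linarith)]
    ring

end Pool.Agent.H3R2
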