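import Pool.Agent.H3R2.Inv
import Pool.Agent.H3R2.Cut

/-!
The trajectories `X(s,t)`, the phase and the potential in Lagrangian coordinates.
-/

open Set Filter Topology Real
open scoped ContDiff

namespace Pool.Agent.H3R2

variable (P : Prof) (ν : ℝ)

/-- derivatives of the two cut-offs -/
noncomputable def Prof.f (j : ℕ) : ℝ → ℝ := deriv^[j] P.φ
noncomputable def Prof.c (j : ℕ) : ℝ → ℝ := deriv^[j] P.χ

lemma Prof.hf (j : ℕ) (s : ℝ) : HasDerivAt (P.f j) (P.f (j + 1) s) s := hasDerivAt_iter P.hφ j s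
lemma Prof.hc (j : ℕ) (s : ℝ) : HasDerivAt (P.c j) (P.c (j + 1) s) s := hasDerivAt_iter P.hχ j s
lemma Prof.cf (j : ℕ) : ContDiff ℝ ∞ (P.f j) := contDiff_iter P.hφ j
lemma Prof.cc (j : ℕ) : ContDiff ℝ ∞ (P.c j) := contDiff_iter P.hχ j

/-- amplitude -/
noncomputable def Prof.a : ℝ := 1 / (4 * P.K)
noncomputable def Prof.b : ℝ := P.a ^ 2 / 16

lemma Prof.a_pos : 0 < P.a := by
  have := P.one_le_K
  unfold Prof.a
  positivity

lemma Prof.a_mul_K : P.a * P.K = 1 / 4 := by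
  have := P.one_le_K
  unfold Prof.a
  field_simp

lemma Prof.a_le : P.a ≤ 1 / 4 := by
  have h1 := P.one_le_K
  have h2 := P.a_mul_K
  have h3 := P.a_pos
  nlinarith

lemma Prof.b_pos : 0 < P.b := by
  have := P.a_pos
  unfold Prof.b
  positivity

lemma Prof.b_le : P.b ≤ P.a := by
  have h1 := P.a_le
  have h3 := P.a_pos
  unfold Prof.b
  nlinarith

lemma Prof.cross (i j : ℕ) (hi : 1 ≤ i) (hj : 1 ≤ j) (s : ℝ) : P.f i s * P.c j s = 0 := by
  by_cases h : |s| < 2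
  · have : P.c j s = 0 := by
      unfold Prof.c
      rw [(iter_congr (P.χ_in s h) j).eq_of_nhds]
      exact iter_const 1 j hj s
    rw [this, mul_zero]
  · have : P.f i s = 0 := by
      unfold Prof.f
      rw [(iter_congr (P.φ_out s (by push Not at h; linarith)) i).eq_of_nhds]
      exact iter_const 0 i hi s
    rw [this, zero_mul]

lemma Prof.f_in0 (s : ℝ) (h : |s| < 1) : P.f 0 s = s := (P.φ_in s h).eq_of_nhds
lemma Prof.f_in1 (s : ℝ) (h : |s| < 1) : P.f 1 s = 1 := by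
  unfold Prof.f
  rw [(iter_congr (P.φ_in s h) 1).eq_of_nhds]
  simp
lemma Prof.f_in (s : ℝ) (h : |s| < 1) (j : ℕ) (hj : 2 ≤ j) : P.f j s = 0 := by
  unfold Prof.f
  rw [(iter_congr (P.φ_in s h) j).eq_of_nhds]
  exact iter_id j hj s
lemma Prof.c_in0 (s : ℝ) (h : |s| < 2) : P.c 0 s = 1 := (P.χ_in s h).eq_of_nhds
lemma Prof.c_in (s : ℝ) (h : |s| < 2) (j : ℕ) (hj : 1 ≤ j) : P.c j s = 0 := by
  unfold Prof.c
  rw [(iter_congr (P.χ_in s h) j).eq_of_nhds]
  exact iter_const 1 j hj s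
lemma Prof.f_out (s : ℝ) (h : 3 / 2 < |s|) (j : ℕ) : P.f j s = 0 := by
  unfold Prof.f
  rw [(iter_congr (P.φ_out s h) j).eq_of_nhds]
  rcases Nat.eq_zero_or_pos j with rfl | hj
  · simp
  · exact iter_const 0 j hj s
lemma Prof.c_out (s : ℝ) (h : 5 / 2 < |s|) (j : ℕ) : P.c j s = 0 := by
  unfold Prof.c
  rw [(iter_congr (P.χ_out s h) j).eq_of_nhds]
  rcases Nat.eq_zero_or_pos j with rfl | hj
  · simp
  · exact iter_const 0 j hj s
lemma Prof.f_bd (j : ℕ) (hj : j ≤ 4) (s : ℝ) : |P.f j s| ≤ P.K := P.bφ j hj s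
lemma Prof.c_bd (j : ℕ) (hj : j ≤ 4) (s : ℝ) : |P.c j s| ≤ P.K := P.bχ j hj s

/-- trajectories -/
noncomputable def X (s t : ℝ) : ℝ :=
  s + P.a * P.f 1 s * cos (ν * t) - P.b * P.c 1 s * cos (2 * (ν * t))
noncomputable def X1 (s t : ℝ) : ℝ :=
  1 + P.a * P.f 2 s * cos (ν * t) - P.b * P.c 2 s * cos (2 * (ν * t))
noncomputable def X2 (s t : ℝ) : ℝ :=
  P.a * P.f 3 s * cos (ν * t) - P.b * P.c 3 s * cos (2 * (ν * t))
noncomputable def X3 (s t : ℝ) : ℝ :=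
  P.a * P.f 4 s * cos (ν * t) - P.b * P.c 4 s * cos (2 * (ν * t))
noncomputable def Xt (s t : ℝ) : ℝ :=
  -(ν * (P.a * P.f 1 s * sin (ν * t))) + 2 * ν * (P.b * P.c 1 s * sin (2 * (ν * t)))
noncomputable def X1t (s t : ℝ) : ℝ :=
  -(ν * (P.a * P.f 2 s * sin (ν * t))) + 2 * ν * (P.b * P.c 2 s * sin (2 * (ν * t)))

/-- phase -/
noncomputable def T (s t : ℝ) : ℝ :=
  t - ν / 2 * (P.a * P.f 0 s * sin (ν * t) - 2 * (P.b * P.c 0 s * sin (2 * (ν * t)))
    + 1 / 2 * (P.a * P.f 1 s) ^ 2 * (sin (ν * t) * cos (ν * t))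
    + (P.b * P.c 1 s) ^ 2 * (sin (2 * (ν * t)) * cos (2 * (ν * t))))
noncomputable def Tt (s t : ℝ) : ℝ :=
  1 - ν / 2 * (ν * (P.a * P.f 0 s * cos (ν * t)) - 4 * ν * (P.b * P.c 0 s * cos (2 * (ν * t)))
    + 1 / 2 * (P.a * P.f 1 s) ^ 2 * (ν * (cos (ν * t) ^ 2 - sin (ν * t) ^ 2))
    + (P.b * P.c 1 s) ^ 2 * (2 * ν * (cos (2 * (ν * t)) ^ 2 - sin (2 * (ν * t)) ^ 2)))

lemma hX (s t : ℝ) : HasDerivAt (fun s => X P ν s t) (X1 P ν s t) s := by
  unfold X X1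
  exact ((hasDerivAt_id s).add (((P.hf 1 s).const_mul P.a).mul_const _)).sub
    (((P.hc 1 s).const_mul P.b).mul_const _)

lemma hX1 (s t : ℝ) : HasDerivAt (fun s => X1 P ν s t) (X2 P ν s t) s := by
  unfold X1 X2
  have := ((((P.hf 2 s).const_mul P.a).mul_const (cos (ν * t))).const_add 1).sub
    (((P.hc 2 s).const_mul P.b).mul_const (cos (2 * (ν * t))))
  exact this

lemma hX2 (s t : ℝ) : HasDerivAt (fun s => X2 P ν s t) (X3 P ν s t) s := by
  unfold X2 X3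
  exact (((P.hf 3 s).const_mul P.a).mul_const (cos (ν * t))).sub
    (((P.hc 3 s).const_mul P.b).mul_const (cos (2 * (ν * t))))

lemma hXts (s t : ℝ) : HasDerivAt (fun s => Xt P ν s t) (X1t P ν s t) s := by
  unfold Xt X1t
  exact ((((P.hf 1 s).const_mul P.a).mul_const (sin (ν * t))).const_mul ν).neg.add
    ((((P.hc 1 s).const_mul P.b).mul_const (sin (2 * (ν * t)))).const_mul (2 * ν))

lemma hcos1 (t : ℝ) : HasDerivAt (fun t => cos (ν * t)) (-(ν * sin (ν * t))) t := by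
  have h1 : HasDerivAt (fun t : ℝ => ν * t) ν t := by simpa using (hasDerivAt_id t).const_mul ν
  have := h1.cos
  convert this using 1
  ring
lemma hsin1 (t : ℝ) : HasDerivAt (fun t => sin (ν * t)) (ν * cos (ν * t)) t := by
  have h1 : HasDerivAt (fun t : ℝ => ν * t) ν t := by simpa using (hasDerivAt_id t).const_mul ν
  have := h1.sin
  convert this using 1
  ring
lemma hcos2 (t : ℝ) : HasDerivAt (fun t => cos (2 * (ν * t))) (-(2 * ν * sin (2 * (ν * t)))) t := by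
  have h1 : HasDerivAt (fun t : ℝ => 2 * (ν * t)) (2 * ν) t := by
    simpa using ((hasDerivAt_id t).const_mul ν).const_mul 2
  have := h1.cos
  convert this using 1
  ring
lemma hsin2 (t : ℝ) : HasDerivAt (fun t => sin (2 * (ν * t))) (2 * ν * cos (2 * (ν * t))) t := by
  have h1 : HasDerivAt (fun t : ℝ => 2 * (ν * t)) (2 * ν) t := by
    simpa using ((hasDerivAt_id t).const_mul ν).const_mul 2
  have := h1.sin
  convert this using 1
  ring

lemma hXt (s t : ℝ) : HasDerivAt (fun t => X P ν s t) (Xt P ν s t) t := by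
  unfold X Xt
  have h := (((hcos1 ν t).const_mul (P.a * P.f 1 s)).const_add s).sub
    ((hcos2 ν t).const_mul (P.b * P.c 1 s))
  refine h.congr_deriv ?_
  ring

lemma hX1t (s t : ℝ) : HasDerivAt (fun t => X1 P ν s t) (X1t P ν s t) t := by
  unfold X1 X1t
  have h := (((hcos1 ν t).const_mul (P.a * P.f 2 s)).const_add 1).sub
    ((hcos2 ν t).const_mul (P.b * P.c 2 s))
  refine h.congr_deriv ?_
  ring

lemma hTs (s t : ℝ) : HasDerivAt (fun s => T P ν s t) (Xt P ν s t * X1 P ν s t / 2) s := by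
  have h0 := P.hf 0 s
  have h1 := P.hf 1 s
  have k0 := P.hc 0 s
  have k1 := P.hc 1 s
  have h : HasDerivAt (fun s => T P ν s t)
      (0 - ν / 2 * (P.a * P.f 1 s * sin (ν * t) - 2 * (P.b * P.c 1 s * sin (2 * (ν * t)))
      + 1 / 2 * ((2 : ℕ) * (P.a * P.f 1 s) ^ (2 - 1) * (P.a * P.f 2 s)) * (sin (ν * t) * cos (ν * t))
      + ((2 : ℕ) * (P.b * P.c 1 s) ^ (2 - 1) * (P.b * P.c 2 s)) * (sin (2 * (ν * t)) * cos (2 * (ν * t))))) s := by
    unfold T
    exact (hasDerivAt_const s t).sub ((((((h0.const_mul P.a).mul_const (sin (ν * t))).sub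
      (((k0.const_mul P.b).mul_const (sin (2 * (ν * t)))).const_mul 2)).add
      ((((h1.const_mul P.a).pow 2).const_mul (1 / 2)).mul_const (sin (ν * t) * cos (ν * t)))).add
      (((k1.const_mul P.b).pow 2).mul_const (sin (2 * (ν * t)) * cos (2 * (ν * t))))).const_mul (ν / 2))
  convert h using 1
  unfold Xt X1
  have e1 := P.cross 1 2 le_rfl (by norm_num) s
  have e2 := P.cross 2 1 (by norm_num) le_rfl s
  push_cast
  simp only [pow_one]
  linear_combination (ν / 2 * P.a * P.b * sin (ν * t) * cos (2 * (ν * t))) * e1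
    + (ν * P.a * P.b * sin (2 * (ν * t)) * cos (ν * t)) * e2

lemma hTt (s t : ℝ) : HasDerivAt (fun t => T P ν s t) (Tt P ν s t) t := by
  have h1 := hsin1 ν t
  have h2 := hsin2 ν t
  have k1 := hcos1 ν t
  have k2 := hcos2 ν t
  have h := (hasDerivAt_id t).sub ((((((h1.const_mul (P.a * P.f 0 s))).sub
      ((h2.const_mul (P.b * P.c 0 s)).const_mul 2)).add
      ((h1.mul k1).const_mul (1 / 2 * (P.a * P.f 1 s) ^ 2))).add
      ((h2.mul k2).const_mul ((P.b * P.c 1 s) ^ 2))).const_mul (ν / 2))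
  unfold T Tt
  refine h.congr_deriv ?_
  ring

/-! ### Joint smoothness -/

lemma cd_cos1 : ContDiff ℝ ∞ (fun p : ℝ × ℝ => cos (ν * p.2)) :=
  contDiff_cos.comp (contDiff_const.mul contDiff_snd)
lemma cd_sin1 : ContDiff ℝ ∞ (fun p : ℝ × ℝ => sin (ν * p.2)) :=
  contDiff_sin.comp (contDiff_const.mul contDiff_snd)
lemma cd_cos2 : ContDiff ℝ ∞ (fun p : ℝ × ℝ => cos (2 * (ν * p.2))) :=
  contDiff_cos.comp (contDiff_const.mul (contDiff_const.mul contDiff_snd))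
lemma cd_sin2 : ContDiff ℝ ∞ (fun p : ℝ × ℝ => sin (2 * (ν * p.2))) :=
  contDiff_sin.comp (contDiff_const.mul (contDiff_const.mul contDiff_snd))
lemma cd_f (j : ℕ) : ContDiff ℝ ∞ (fun p : ℝ × ℝ => P.f j p.1) := (P.cf j).comp contDiff_fst
lemma cd_c (j : ℕ) : ContDiff ℝ ∞ (fun p : ℝ × ℝ => P.c j p.1) := (P.cc j).comp contDiff_fst

lemma cdX : ContDiff ℝ ∞ (fun p : ℝ × ℝ => X P ν p.1 p.2) := by
  unfold X
  exact (contDiff_fst.add ((contDiff_const.mul (cd_f P 1)).mul (cd_cos1 ν))).sub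
    ((contDiff_const.mul (cd_c P 1)).mul (cd_cos2 ν))
lemma cdX1 : ContDiff ℝ ∞ (fun p : ℝ × ℝ => X1 P ν p.1 p.2) := by
  unfold X1
  exact (contDiff_const.add ((contDiff_const.mul (cd_f P 2)).mul (cd_cos1 ν))).sub
    ((contDiff_const.mul (cd_c P 2)).mul (cd_cos2 ν))
lemma cdX2 : ContDiff ℝ ∞ (fun p : ℝ × ℝ => X2 P ν p.1 p.2) := by
  unfold X2
  exact ((contDiff_const.mul (cd_f P 3)).mul (cd_cos1 ν)).sub
    ((contDiff_const.mul (cd_c P 3)).mul (cd_cos2 ν))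
lemma cdX3 : ContDiff ℝ ∞ (fun p : ℝ × ℝ => X3 P ν p.1 p.2) := by
  unfold X3
  exact ((contDiff_const.mul (cd_f P 4)).mul (cd_cos1 ν)).sub
    ((contDiff_const.mul (cd_c P 4)).mul (cd_cos2 ν))
lemma cdXt : ContDiff ℝ ∞ (fun p : ℝ × ℝ => Xt P ν p.1 p.2) := by
  unfold Xt
  exact (contDiff_const.mul ((contDiff_const.mul (cd_f P 1)).mul (cd_sin1 ν))).neg.add
    (contDiff_const.mul ((contDiff_const.mul (cd_c P 1)).mul (cd_sin2 ν)))
lemma cdT : ContDiff ℝ ∞ (fun p : ℝ × ℝ => T P ν p.1 p.2) := by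
  unfold T
  exact contDiff_snd.sub (contDiff_const.mul (((((contDiff_const.mul (cd_f P 0)).mul (cd_sin1 ν)).sub
    (contDiff_const.mul ((contDiff_const.mul (cd_c P 0)).mul (cd_sin2 ν)))).add
    ((contDiff_const.mul ((contDiff_const.mul (cd_f P 1)).pow 2)).mul
      ((cd_sin1 ν).mul (cd_cos1 ν)))).add
    (((contDiff_const.mul (cd_c P 1)).pow 2).mul ((cd_sin2 ν).mul (cd_cos2 ν)))))
lemma cdTt : ContDiff ℝ ∞ (fun p : ℝ × ℝ => Tt P ν p.1 p.2) := by
  unfold Tt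
  exact contDiff_const.sub (contDiff_const.mul ((((contDiff_const.mul
      ((contDiff_const.mul (cd_f P 0)).mul (cd_cos1 ν))).sub
    (contDiff_const.mul ((contDiff_const.mul (cd_c P 0)).mul (cd_cos2 ν)))).add
    ((contDiff_const.mul ((contDiff_const.mul (cd_f P 1)).pow 2)).mul
      (contDiff_const.mul (((cd_cos1 ν).pow 2).sub ((cd_sin1 ν).pow 2))))).add
    (((contDiff_const.mul (cd_c P 1)).pow 2).mul
      (contDiff_const.mul (((cd_cos2 ν).pow 2).sub ((cd_sin2 ν).pow 2))))))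

/-! ### Bounds -/

lemma bd_term (x c y d K a b : ℝ) (ha : 0 ≤ a) (hb : 0 ≤ b) (hba : b ≤ a) (hx : |x| ≤ K)
    (hc : |c| ≤ 1) (hy : |y| ≤ K) (hd : |d| ≤ 1) :
    |a * x * c - b * y * d| ≤ 2 * (a * K) := by
  have h1 : |a * x * c| ≤ a * K := by
    rw [abs_mul, abs_mul, abs_of_nonneg ha]
    have : a * |x| ≤ a * K := mul_le_mul_of_nonneg_left hx ha
    have h2 : 0 ≤ a * |x| := by positivity
    nlinarith [abs_nonneg c]
  have h2 : |b * y * d| ≤ a * K := by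
    rw [abs_mul, abs_mul, abs_of_nonneg hb]
    have : b * |y| ≤ a * K := mul_le_mul hba hy (abs_nonneg _) ha
    have h2 : 0 ≤ b * |y| := by positivity
    nlinarith [abs_nonneg d]
  calc |a * x * c - b * y * d| ≤ |a * x * c| + |b * y * d| := abs_sub _ _
    _ ≤ 2 * (a * K) := by linarith

lemma bd_j (i j : ℕ) (hi : i ≤ 4) (hj : j ≤ 4) (s t : ℝ) :
    |P.a * P.f i s * cos (ν * t) - P.b * P.c j s * cos (2 * (ν * t))| ≤ 1 / 2 := by
  have h := bd_term (P.f i s) (cos (ν * t)) (P.c j s) (cos (2 * (ν * t))) P.K P.a P.b P.a_pos.le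
    P.b_pos.le P.b_le (P.f_bd i hi s) (abs_cos_le_one _) (P.c_bd j hj s) (abs_cos_le_one _)
  rw [P.a_mul_K] at h
  linarith

lemma X_sub (s t : ℝ) : |X P ν s t - s| ≤ 1 / 2 := by
  have := bd_j P ν 1 1 (by norm_num) (by norm_num) s t
  have e : X P ν s t - s = P.a * P.f 1 s * cos (ν * t) - P.b * P.c 1 s * cos (2 * (ν * t)) := by
    unfold X
    ring
  rw [e]
  exact this

lemma X1_bd (s t : ℝ) : 1 / 2 ≤ X1 P ν s t ∧ X1 P ν s t ≤ 3 / 2 := by
  have := bd_j P ν 2 2 (by norm_num) (by norm_num) s t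
  have e : X1 P ν s t = 1 + (P.a * P.f 2 s * cos (ν * t) - P.b * P.c 2 s * cos (2 * (ν * t))) := by
    unfold X1
    ring
  rw [e]
  rw [abs_le] at this
  constructor <;> linarith

lemma X1_pos (s t : ℝ) : 0 < X1 P ν s t := by
  have := (X1_bd P ν s t).1
  linarith

lemma X2_bd (s t : ℝ) : |X2 P ν s t| ≤ 1 / 2 := bd_j P ν 3 3 (by norm_num) (by norm_num) s t
lemma X3_bd (s t : ℝ) : |X3 P ν s t| ≤ 1 / 2 := bd_j P ν 4 4 (by norm_num) (by norm_num) s t

end Pool.Agent.H3R2
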