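import Mathlib

/-!
Inverse of a smooth family of diffeomorphisms of the line.
-/

open Set Filter Topology
open scoped ContDiff

namespace Pool.Agent.H3R2

/-- A smooth function `X(s,t)` with `∂_s X ≥ c > 0`, which differs from `s` by a bounded amount,
has a smooth inverse `y(x,t)` in the first variable. -/
theorem exists_inverse (X Xs : ℝ × ℝ → ℝ) (hX : ContDiff ℝ ∞ X)
    (hXs : ∀ s t, HasDerivAt (fun s => X (s, t)) (Xs (s, t)) s)
    (hpos : ∀ p, 0 < Xs p) (C : ℝ) (hC : ∀ s t, |X (s, t) - s| ≤ C) :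
    ∃ y : ℝ × ℝ → ℝ, ContDiff ℝ ∞ y ∧ (∀ x t, X (y (x, t), t) = x) ∧
      (∀ s t, y (X (s, t), t) = s) := by
  have hmono : ∀ t, StrictMono (fun s => X (s, t)) := by
    intro t
    apply strictMono_of_deriv_pos
    intro s
    rw [(hXs s t).deriv]
    exact hpos _
  have hcont : ∀ t, Continuous (fun s => X (s, t)) := by
    intro t
    exact hX.continuous.comp (by fun_prop)
  have hsurj : ∀ t, Function.Surjective (fun s => X (s, t)) := by
    intro t
    apply (hcont t).surjective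
    · apply tendsto_atTop_mono (f := fun s => s - C)
      · intro s
        have := abs_le.mp (hC s t)
        linarith
      · exact tendsto_atTop_add_const_right _ _ tendsto_id
    · apply tendsto_atBot_mono (g := fun s => X (s, t)) (f := fun s => s + C)
      · intro s
        have := abs_le.mp (hC s t)
        linarith
      · exact tendsto_atBot_add_const_right _ _ tendsto_id
  let F : ℝ × ℝ → ℝ × ℝ := fun p => (X p, p.2)
  have hF : ContDiff ℝ ∞ F := hX.prodMk contDiff_snd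
  have hbij : Function.Bijective F := by
    constructor
    · rintro ⟨s, t⟩ ⟨s', t'⟩ h
      simp only [F, Prod.mk.injEq] at h
      obtain ⟨h1, h2⟩ := h
      subst h2
      have := (hmono t).injective h1
      rw [this]
    · rintro ⟨x, t⟩
      obtain ⟨s, hs⟩ := hsurj t x
      exact ⟨(s, t), by simp only [F]; exact Prod.ext hs rfl⟩
  -- the derivative
  have hd : ∀ p : ℝ × ℝ, ∃ L : (ℝ × ℝ) ≃L[ℝ] (ℝ × ℝ), HasStrictFDerivAt F (L : (ℝ × ℝ) →L[ℝ] (ℝ × ℝ)) p := by
    intro p
    have h1 : HasStrictFDerivAt X (fderiv ℝ X p) p :=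
      hX.contDiffAt.hasStrictFDerivAt (by simp)
    have h2 : HasStrictFDerivAt F ((fderiv ℝ X p).prod (ContinuousLinearMap.snd ℝ ℝ ℝ)) p :=
      h1.prodMk hasStrictFDerivAt_snd
    have h3 : (fderiv ℝ X p) (1, 0) = Xs p := by
      have h4 : HasDerivAt (fun s => X (s, p.2)) ((fderiv ℝ X p) (1, 0)) p.1 := by
        have h5 : HasFDerivAt X (fderiv ℝ X p) (p.1, p.2) := h1.hasFDerivAt
        have h6 : HasDerivAt (fun s : ℝ => (s, p.2)) ((1 : ℝ), (0 : ℝ)) p.1 :=
          (hasDerivAt_id p.1).prodMk (hasDerivAt_const p.1 p.2)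
        exact h5.comp_hasDerivAt p.1 h6
      exact h4.unique (hXs p.1 p.2)
    let a : ℝ := Xs p
    have ha : a ≠ 0 := (hpos p).ne'
    let b : ℝ := (fderiv ℝ X p) (0, 1)
    let L1 : (ℝ × ℝ) →L[ℝ] (ℝ × ℝ) := (fderiv ℝ X p).prod (ContinuousLinearMap.snd ℝ ℝ ℝ)
    let L2 : (ℝ × ℝ) →L[ℝ] (ℝ × ℝ) :=
      (a⁻¹ • (ContinuousLinearMap.fst ℝ ℝ ℝ - b • ContinuousLinearMap.snd ℝ ℝ ℝ)).prod
        (ContinuousLinearMap.snd ℝ ℝ ℝ)
    have hL1 : ∀ q : ℝ × ℝ, L1 q = (a * q.1 + b * q.2, q.2) := by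
      intro q
      have : q = q.1 • ((1 : ℝ), (0 : ℝ)) + q.2 • ((0 : ℝ), (1 : ℝ)) := by
        ext <;> simp
      have h5 : (fderiv ℝ X p) q = a * q.1 + b * q.2 := by
        conv_lhs => rw [this]
        rw [map_add, map_smul, map_smul, h3]
        simp only [smul_eq_mul, a, b]
        ring
      simp [L1, h5]
    have hL2 : ∀ q : ℝ × ℝ, L2 q = (a⁻¹ * (q.1 - b * q.2), q.2) := by
      intro q
      simp [L2]
    refine ⟨ContinuousLinearEquiv.equivOfInverse L1 L2 ?_ ?_, ?_⟩
    · intro q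
      rw [hL1, hL2]
      ext
      · simp only
        field_simp
        ring
      · rfl
    · intro q
      rw [hL2, hL1]
      ext
      · simp only
        field_simp
        ring
      · rfl
    · exact h2
  choose L hL using hd
  have hopen : IsOpenMap F := isOpenMap_of_hasStrictFDerivAt_equiv hL
  let Φ : (ℝ × ℝ) ≃ₜ (ℝ × ℝ) :=
    (Equiv.ofBijective F hbij).toHomeomorphOfContinuousOpen hF.continuous hopen
  have hΦ : (Φ : ℝ × ℝ → ℝ × ℝ) = F := rfl
  have hsymm : ContDiff ℝ ∞ (Φ.symm : ℝ × ℝ → ℝ × ℝ) := by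
    apply Φ.contDiff_symm (f₀' := L)
    · intro p
      exact (hL p).hasFDerivAt
    · rw [hΦ]
      exact hF
  refine ⟨fun q => (Φ.symm q).1, contDiff_fst.comp hsymm, ?_, ?_⟩
  · intro x t
    have h1 : F (Φ.symm (x, t)) = (x, t) := Φ.apply_symm_apply (x, t)
    simp only [F, Prod.mk.injEq] at h1
    obtain ⟨h1, h2⟩ := h1
    have h3 : ((Φ.symm (x, t)).1, t) = Φ.symm (x, t) := Prod.ext rfl h2.symm
    rw [h3]
    exact h1
  · intro s t
    have h1 : Φ.symm (F (s, t)) = (s, t) := Φ.symm_apply_apply (s, t)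
    simp only [F] at h1
    simp only
    rw [h1]

end Pool.Agent.H3R2
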