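import Pool.Agent.H3R2.Reg

/-!
Assembly: an admissible potential on the line with a bound state.
-/

open Set Filter Topology Real MeasureTheory
open scoped ContDiff NNReal

namespace Pool.Agent.H3R2

variable (D : Data)

lemma jap_pos (x : ℝ) : 0 < TD.jap x := by
  unfold TD.jap
  positivity

lemma one_le_jap (x : ℝ) : 1 ≤ TD.jap x := by
  unfold TD.jap
  rw [Real.one_le_sqrt]
  nlinarith [sq_nonneg x]

lemma jap_le (x : ℝ) (hx : |x| ≤ 4) : TD.jap x ≤ 5 := by
  unfold TD.jap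
  rw [Real.sqrt_le_left (by norm_num)]
  have := sq_le_sq' (abs_le.mp hx).1 (abs_le.mp hx).2
  linarith

/-- the potential as a function of two variables -/
noncomputable def Data.pot (x t : ℝ) : ℝ := D.V (x, t)

lemma Data.smoothLocalized : TD.SmoothLocalized D.pot := by
  have hb := bounded_of_periodic D.cdV 4 D.per D.per_pos D.V_out D.V_per
  refine ⟨D.cdV, hb, ?_⟩
  intro N
  obtain ⟨C, hC⟩ := hb 0
  refine ⟨C * 5 ^ N, fun x t => ?_⟩
  have hC' : |D.V (x, t)| ≤ C := by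
    have := hC (x, t)
    rwa [norm_iteratedFDeriv_zero] at this
  have hC0 : 0 ≤ C := le_trans (abs_nonneg _) hC'
  have hj := jap_pos x
  unfold Data.pot
  by_cases hx : |x| ≤ 4
  · rw [le_div_iff₀ (by positivity)]
    exact mul_le_mul hC' (pow_le_pow_left₀ hj.le (jap_le x hx) N) (by positivity) hC0
  · push Not at hx
    rw [D.V_out x t hx, abs_zero]
    positivity

lemma Data.admissible : TD.Admissible D.pot := by
  refine ⟨D.smoothLocalized, fun x t => D.V_nonneg _, ?_⟩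
  refine ⟨X D.P D.P.nu 0 0, 0, ?_⟩
  unfold Data.pot Data.V
  simp only
  rw [D.hyX, Vh_core D.P D.w D.hw1 0 0 (by simp)]
  have h1 := D.P.nu_sq
  have h2 := D.P.E_ge
  have h3 : -D.P.E + (D.P.E * 0) ^ 2 - 1 + D.P.nu ^ 2 * (D.P.a ^ 2 / 8 + D.P.a * 0 *
      cos (D.P.nu * 0) / 2) = 3 * D.P.E - 1 := by
    linear_combination (1 / 8 : ℝ) * h1
  rw [h3]
  linarith

/-! ### integrability -/

lemma exp_bound (x : ℝ) : exp (-|x|) * (1 + |x|) ^ 3 ≤ 27 := by
  have h1 : 1 + |x| / 3 ≤ exp (|x| / 3) := by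
    have := add_one_le_exp (|x| / 3)
    linarith
  have h2 : (1 + |x|) / 3 ≤ exp (|x| / 3) := by
    have := abs_nonneg x
    linarith
  have h3 : ((1 + |x|) / 3) ^ 3 ≤ exp (|x| / 3) ^ 3 :=
    pow_le_pow_left₀ (by positivity) h2 3
  have h4 : exp (|x| / 3) ^ 3 = exp |x| := by
    rw [← exp_nat_mul]
    congr 1
    push_cast
    ring
  rw [h4] at h3
  have h5 : (1 + |x|) ^ 3 ≤ 27 * exp |x| := by
    have : ((1 + |x|) / 3) ^ 3 = (1 + |x|) ^ 3 / 27 := by ring
    rw [this] at h3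
    linarith
  calc exp (-|x|) * (1 + |x|) ^ 3 ≤ exp (-|x|) * (27 * exp |x|) :=
        mul_le_mul_of_nonneg_left h5 (exp_pos _).le
    _ = 27 * (exp (-|x|) * exp |x|) := by ring
    _ = 27 := by rw [← exp_add]; simp

lemma jap_le_one_add (x : ℝ) : TD.jap x ≤ 1 + |x| := by
  unfold TD.jap
  rw [Real.sqrt_le_left (by positivity)]
  nlinarith [abs_nonneg x, sq_abs x]

lemma jap_exp (x : ℝ) : TD.jap x * exp (-|x|) ≤ 27 * (1 + x ^ 2)⁻¹ := by
  have h1 := exp_bound x
  have h2 := jap_le_one_add x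
  have h3 : 0 < 1 + x ^ 2 := by positivity
  rw [← div_eq_mul_inv, le_div_iff₀ h3]
  have h4 : 1 + x ^ 2 ≤ (1 + |x|) ^ 2 := by nlinarith [abs_nonneg x, sq_abs x]
  have h5 := (exp_pos (-|x|)).le
  have h6 := abs_nonneg x
  calc TD.jap x * exp (-|x|) * (1 + x ^ 2)
      ≤ (1 + |x|) * exp (-|x|) * (1 + |x|) ^ 2 := by
        apply mul_le_mul _ h4 h3.le (by positivity)
        exact mul_le_mul_of_nonneg_right h2 h5
    _ = exp (-|x|) * (1 + |x|) ^ 3 := by ring
    _ ≤ 27 := h1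

/-- A uniform `L²` majorant for `⟨x⟩ ψ(t,x)`. -/
lemma Data.majorant : ∃ C : ℝ, 0 < C ∧ ∀ t x, TD.jap x * ‖D.psi t x‖ ≤ C * (1 + x ^ 2)⁻¹ := by
  obtain ⟨C, hC, h⟩ := D.decay
  refine ⟨C * 27, by positivity, fun t x => ?_⟩
  calc TD.jap x * ‖D.psi t x‖ ≤ TD.jap x * (C * exp (-|x|)) :=
        mul_le_mul_of_nonneg_left (h t x) (jap_pos x).le
    _ = C * (TD.jap x * exp (-|x|)) := by ring
    _ ≤ C * (27 * (1 + x ^ 2)⁻¹) := mul_le_mul_of_nonneg_left (jap_exp x) hC.le
    _ = C * 27 * (1 + x ^ 2)⁻¹ := by ring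

lemma memLp_maj (C : ℝ) : MemLp (fun x : ℝ => C * (1 + x ^ 2)⁻¹) 2 volume := by
  apply MemLp.const_mul
  have hc : Continuous (fun x : ℝ => (1 + x ^ 2)⁻¹) :=
    Continuous.inv₀ (by fun_prop) (fun x => by positivity)
  rw [memLp_two_iff_integrable_sq hc.aestronglyMeasurable]
  apply integrable_inv_one_add_sq.mono' (hc.pow 2).aestronglyMeasurable
  refine Eventually.of_forall fun x => ?_
  have h1 : 0 < (1 + x ^ 2)⁻¹ := by positivity
  have h2 : (1 + x ^ 2)⁻¹ ≤ 1 := inv_le_one_of_one_le₀ (by nlinarith [sq_nonneg x])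
  show ‖((1 + x ^ 2)⁻¹) ^ 2‖ ≤ (1 + x ^ 2)⁻¹
  rw [Real.norm_of_nonneg (by positivity)]
  nlinarith

lemma Data.cont_psi (t : ℝ) : Continuous (D.psi t) := by
  have h : Continuous (fun x : ℝ => (t, x)) := by fun_prop
  exact D.cdpsi.continuous.comp h

lemma Data.memLp (t : ℝ) : MemLp (D.psi t) 2 volume := by
  obtain ⟨C, hC, h⟩ := D.majorant
  apply (memLp_maj C).mono (D.cont_psi t).aestronglyMeasurable
  refine Eventually.of_forall fun x => ?_
  have h1 := h t x
  have h2 := one_le_jap x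
  rw [Real.norm_of_nonneg (by positivity)]
  nlinarith [norm_nonneg (D.psi t x)]

/-- the curve in `L²` -/
noncomputable def Data.curve (t : ℝ) : Lp ℂ 2 (volume : Measure ℝ) := (D.memLp t).toLp

lemma Data.curve_cont : Continuous D.curve := by
  obtain ⟨C, hC, h⟩ := D.majorant
  rw [continuous_iff_continuousAt]
  intro t0
  unfold ContinuousAt Data.curve
  rw [Lp.tendsto_Lp_iff_tendsto_eLpNorm'']
  have e : ∀ t, eLpNorm (D.psi t - D.psi t0) 2 volume
      = (∫⁻ x, ‖D.psi t x - D.psi t0 x‖ₑ ^ (2 : ℝ)) ^ (1 / 2 : ℝ) := by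
    intro t
    rw [eLpNorm_eq_lintegral_rpow_enorm_toReal (by norm_num) (by norm_num)]
    simp
  simp_rw [e]
  have hz : (0 : ENNReal) = (∫⁻ x : ℝ, (0 : ENNReal)) ^ (1 / 2 : ℝ) := by simp
  rw [hz]
  apply ((ENNReal.continuous_rpow_const (y := 1 / 2)).tendsto _).comp
  -- dominated convergence
  have hdom : ∀ t x, ‖D.psi t x - D.psi t0 x‖ ≤ 2 * (C * (1 + x ^ 2)⁻¹) := by
    intro t x
    have h1 := h t x
    have h2 := h t0 x
    have h3 := one_le_jap x
    have h4 := norm_sub_le (D.psi t x) (D.psi t0 x)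
    nlinarith [norm_nonneg (D.psi t x), norm_nonneg (D.psi t0 x)]
  apply tendsto_lintegral_filter_of_dominated_convergence
    (bound := fun x => ‖2 * (C * (1 + x ^ 2)⁻¹)‖ₑ ^ (2 : ℝ))
  · refine Eventually.of_forall fun t => ?_
    have : Continuous fun x => D.psi t x - D.psi t0 x := (D.cont_psi t).sub (D.cont_psi t0)
    exact (this.enorm.measurable.pow_const _)
  · refine Eventually.of_forall fun t => Eventually.of_forall fun x => ?_
    apply ENNReal.rpow_le_rpow _ (by norm_num)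
    rw [enorm_le_iff_norm_le, Real.norm_of_nonneg (by positivity)]
    exact hdom t x
  · have h1 := ((memLp_maj C).const_mul 2).eLpNorm_lt_top
    rw [eLpNorm_eq_lintegral_rpow_enorm_toReal (by norm_num) (by norm_num)] at h1
    intro h2
    simp only [ENNReal.toReal_ofNat] at h1
    rw [h2] at h1
    simp at h1
  · refine Eventually.of_forall fun x => ?_
    have h1 : Continuous fun t => D.psi t x := by
      have h : Continuous (fun t : ℝ => (t, x)) := by fun_prop
      exact D.cdpsi.continuous.comp h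
    have h2 : Continuous fun t => ‖D.psi t x - D.psi t0 x‖ₑ ^ (2 : ℝ) :=
      (ENNReal.continuous_rpow_const).comp (h1.sub continuous_const).enorm
    have h3 := h2.tendsto t0
    simpa using h3

lemma Data.isBoundState : TD.IsBoundState D.pot D.psi := by
  refine ⟨⟨D.cdpsi, ⟨D.curve, D.curve_cont, fun t => (D.memLp t).coeFn_toLp⟩, ?_⟩, ?_, ?_⟩
  · intro t x
    have h := D.pde x t
    have e : iteratedDeriv 2 (D.psi t) x = deriv (deriv (fun x => D.psi t x)) x := by
      rw [iteratedDeriv_succ, iteratedDeriv_one]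
    rw [e]
    exact h
  · exact ⟨0, 0, by unfold Data.psi; exact Complex.exp_ne_zero _⟩
  · obtain ⟨C, hC, h⟩ := D.majorant
    have hm := (memLp_maj C).eLpNorm_lt_top
    refine ⟨1, one_pos, (eLpNorm (fun x : ℝ => C * (1 + x ^ 2)⁻¹) 2 volume).toNNReal, fun t => ?_⟩
    rw [ENNReal.coe_toNNReal hm.ne]
    apply eLpNorm_mono
    intro x
    rw [Real.rpow_one, norm_mul, Complex.norm_real, Real.norm_of_nonneg (jap_pos x).le,
      Real.norm_of_nonneg (by positivity)]
    exact h t x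

/-- In dimension one there are admissible potentials with a bound state. -/
theorem main : ∃ V : ℝ → ℝ → ℝ, TD.Admissible V ∧ ∃ ψ : ℝ → ℝ → ℂ, TD.IsBoundState V ψ := by
  obtain ⟨D⟩ := exists_data
  exact ⟨D.pot, D.admissible, D.psi, D.isBoundState⟩

end Pool.Agent.H3R2
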