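import Pool.Agent.H3R2.Main

/-!
`-d²/dx² + W` has no eigenvalue if `W ≥ 0` is continuous, bounded and compactly supported.
-/

open Set Filter Topology Real MeasureTheory
open scoped ContDiff NNReal

namespace Pool.Agent.H3R2

lemma not_integrable_of_ge {f : ℝ → ℝ} (hf : Integrable f) (c a : ℝ) (hc : 0 < c)
    (h : ∀ x, a ≤ x → c ≤ f x) : False := by
  have h1 := hf.measure_norm_ge_lt_top hc
  have h2 : Ici a ⊆ {x | c ≤ ‖f x‖} := by
    intro x hx
    exact le_trans (h x hx) (le_abs_self _)
  have h3 := lt_of_le_of_lt (measure_mono h2) h1
  simp at h3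

lemma not_integrable_of_ge' {f : ℝ → ℝ} (hf : Integrable f) (c a : ℝ) (hc : 0 < c)
    (h : ∀ x, x ≤ a → c ≤ f x) : False := by
  have h1 := hf.measure_norm_ge_lt_top hc
  have h2 : Iic a ⊆ {x | c ≤ ‖f x‖} := by
    intro x hx
    exact le_trans (h x hx) (le_abs_self _)
  have h3 := lt_of_le_of_lt (measure_mono h2) h1
  simp at h3

/-- A convex nonnegative integrable function vanishes (version with derivatives). -/
lemma zero_of_convex {f f1 f2 : ℝ → ℝ} (h0 : ∀ x, 0 ≤ f x) (hf : Integrable f)
    (h1 : ∀ x, HasDerivAt f (f1 x) x) (h2 : ∀ x, HasDerivAt f1 (f2 x) x) (h3 : ∀ x, 0 ≤ f2 x) :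
    ∀ x, f x = 0 := by
  have hm : Monotone f1 := monotone_of_deriv_nonneg (fun x => (h2 x).differentiableAt)
    (fun x => by rw [(h2 x).deriv]; exact h3 x)
  -- tangent line inequality
  have ht : ∀ a x, f a + f1 a * (x - a) ≤ f x := by
    intro a x
    have hg : ∀ y, HasDerivAt (fun y => f y - f1 a * (y - a)) (f1 y - f1 a * 1) y := fun y =>
      (h1 y).sub (((hasDerivAt_id y).sub_const a).const_mul (f1 a))
    rcases le_total a x with hax | hax
    · have hmono : MonotoneOn (fun y => f y - f1 a * (y - a)) (Ici a) := by
        apply monotoneOn_of_deriv_nonneg (convex_Ici a)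
        · exact fun y _ => (hg y).continuousAt.continuousWithinAt
        · exact fun y _ => (hg y).differentiableAt.differentiableWithinAt
        · intro y hy
          rw [interior_Ici] at hy
          rw [(hg y).deriv]
          have := hm (le_of_lt hy)
          linarith
      have := hmono self_mem_Ici (show x ∈ Ici a from hax) hax
      simp only [sub_self, mul_zero, sub_zero] at this
      linarith
    · have hmono : AntitoneOn (fun y => f y - f1 a * (y - a)) (Iic a) := by
        apply antitoneOn_of_deriv_nonpos (convex_Iic a)
        · exact fun y _ => (hg y).continuousAt.continuousWithinAt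
        · exact fun y _ => (hg y).differentiableAt.differentiableWithinAt
        · intro y hy
          rw [interior_Iic] at hy
          rw [(hg y).deriv]
          have := hm (le_of_lt hy)
          linarith
      have := hmono (show x ∈ Iic a from hax) self_mem_Iic hax
      simp only [sub_self, mul_zero, sub_zero] at this
      linarith
  have hz : ∀ a, f1 a = 0 := by
    intro a
    rcases lt_trichotomy (f1 a) 0 with h | h | h
    · exfalso
      apply not_integrable_of_ge' hf (-(f1 a)) (a - 1) (by linarith)
      intro x hx
      have := ht a x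
      have := h0 a
      nlinarith
    · exact h
    · exfalso
      apply not_integrable_of_ge hf (f1 a) (a + 1) h
      intro x hx
      have := ht a x
      have := h0 a
      nlinarith
  have hconst : ∀ x y, f x = f y := fun x y =>
    is_const_of_deriv_eq_zero (fun x => (h1 x).differentiableAt)
      (fun x => by rw [(h1 x).deriv, hz x]) x y
  intro x
  by_contra hne
  have hpos : 0 < f x := lt_of_le_of_ne (h0 x) (Ne.symm hne)
  exact not_integrable_of_ge hf (f x) 0 hpos (fun y _ => (hconst x y).le)

/-- derivative of `Re (conj u * v)` -/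
lemma hasDerivAt_reconj {u v : ℝ → ℂ} {u' v' : ℂ} {x : ℝ} (hu : HasDerivAt u u' x)
    (hv : HasDerivAt v v' x) :
    HasDerivAt (fun x => (u x).re * (v x).re + (u x).im * (v x).im)
      ((u'.re * (v x).re + (u x).re * v'.re) + (u'.im * (v x).im + (u x).im * v'.im)) x := by
  have a1 : HasDerivAt (fun x => (u x).re) u'.re x := Complex.reCLM.hasFDerivAt.comp_hasDerivAt x hu
  have a2 : HasDerivAt (fun x => (u x).im) u'.im x := Complex.imCLM.hasFDerivAt.comp_hasDerivAt x hu
  have b1 : HasDerivAt (fun x => (v x).re) v'.re x := Complex.reCLM.hasFDerivAt.comp_hasDerivAt x hv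
  have b2 : HasDerivAt (fun x => (v x).im) v'.im x := Complex.imCLM.hasFDerivAt.comp_hasDerivAt x hv
  exact (a1.mul b1).add (a2.mul b2)

theorem noEigenvalue_of_nonneg {W : ℝ → ℝ} (hW : Continuous W) (h0 : ∀ x, 0 ≤ W x) (M : ℝ)
    (hM : ∀ x, W x ≤ M) (hout : ∀ x, 4 < |x| → W x = 0) : TD.NoEigenvalue W := by
  intro E u v z hu hz huv hvz heq
  -- regularity
  have hzint : ∀ a b, IntervalIntegrable z volume a b := by
    intro a b
    have h1 : IntegrableOn z (Icc (min a b) (max a b)) volume :=
      ((hz (min a b) (max a b)).integrable (by norm_num))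
    rw [intervalIntegrable_iff]
    apply h1.mono_set
    rw [uIoc]
    exact Ioc_subset_Icc_self
  have hvc : Continuous v := by
    have : v = fun x => v 0 + ∫ s in (0 : ℝ)..x, z s := funext hvz
    rw [this]
    exact continuous_const.add (intervalIntegral.continuous_primitive hzint 0)
  have hu1 : ∀ x, HasDerivAt u (v x) x := by
    intro x
    have : u = fun x => u 0 + ∫ s in (0 : ℝ)..x, v s := funext huv
    rw [this]
    exact (intervalIntegral.integral_hasDerivAt_right (hvc.intervalIntegrable _ _)
      (hvc.stronglyMeasurableAtFilter _ _) hvc.continuousAt).const_add _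
  have huc : Continuous u := continuous_iff_continuousAt.mpr fun x => (hu1 x).continuousAt
  let q : ℝ → ℂ := fun x => ((W x - E : ℝ) : ℂ) * u x
  have hqc : Continuous q := by
    have : Continuous fun x => ((W x - E : ℝ) : ℂ) :=
      Complex.continuous_ofReal.comp (hW.sub continuous_const)
    exact this.mul huc
  have hzq : z =ᵐ[volume] q := by
    filter_upwards [heq] with x hx
    simp only [q]
    push_cast
    linear_combination -hx
  have hv1 : ∀ x, HasDerivAt v (q x) x := by
    intro x
    have : v = fun x => v 0 + ∫ s in (0 : ℝ)..x, q s := by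
      funext x
      rw [hvz x]
      congr 1
      exact intervalIntegral.integral_congr_ae (hzq.mono fun y hy _ => hy)
    rw [this]
    exact (intervalIntegral.integral_hasDerivAt_right (hqc.intervalIntegrable _ _)
      (hqc.stronglyMeasurableAtFilter _ _) hqc.continuousAt).const_add _
  -- |u|²
  let f : ℝ → ℝ := fun x => (u x).re * (u x).re + (u x).im * (u x).im
  have hfn : ∀ x, f x = ‖u x‖ ^ 2 := by
    intro x
    simp only [f]
    rw [Complex.sq_norm, Complex.normSq_apply]
  have hf0 : ∀ x, 0 ≤ f x := fun x => by rw [hfn]; positivity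
  have hfi : Integrable f := by
    have : f = fun x => ‖u x‖ ^ 2 := funext hfn
    rw [this]
    exact (memLp_two_iff_integrable_sq_norm hu.1).mp hu
  have hf1 : ∀ x, HasDerivAt f (2 * ((u x).re * (v x).re + (u x).im * (v x).im)) x := by
    intro x
    refine (hasDerivAt_reconj (hu1 x) (hu1 x)).congr_deriv ?_
    ring
  have hre : ∀ x, (q x).re = (W x - E) * (u x).re := by
    intro x
    simp [q]
  have him : ∀ x, (q x).im = (W x - E) * (u x).im := by
    intro x
    simp [q]
  have hg1 : ∀ x, HasDerivAt (fun x => (u x).re * (v x).re + (u x).im * (v x).im)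
      (((v x).re ^ 2 + (v x).im ^ 2) + (W x - E) * f x) x := by
    intro x
    refine (hasDerivAt_reconj (hu1 x) (hv1 x)).congr_deriv ?_
    rw [hre, him]
    simp only [f]
    ring
  -- it suffices to find a point with `u = v = 0`
  have hfinish : (u 5 = 0 ∧ v 5 = 0) → ∀ x, u x = 0 := by
    rintro ⟨hu5, hv5⟩
    let L : ℝ := 1 + |M| + |E|
    let N : ℝ → ℝ := fun x => f x + ((v x).re * (v x).re + (v x).im * (v x).im)
    have hN0 : ∀ x, 0 ≤ N x := by
      intro x
      have := hf0 x
      simp only [N]
      nlinarith [sq_nonneg (v x).re, sq_nonneg (v x).im]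
    have hN1 : ∀ x, HasDerivAt N (2 * ((u x).re * (v x).re + (u x).im * (v x).im) * (1 + (W x - E))) x := by
      intro x
      refine ((hf1 x).add (hasDerivAt_reconj (hv1 x) (hv1 x))).congr_deriv ?_
      rw [hre, him]
      ring
    have hN2 : ∀ x, |2 * ((u x).re * (v x).re + (u x).im * (v x).im) * (1 + (W x - E))| ≤ L * N x := by
      intro x
      rw [abs_mul]
      have h1 : |2 * ((u x).re * (v x).re + (u x).im * (v x).im)| ≤ N x := by
        simp only [N, f]
        rw [abs_le]
        constructor
        · nlinarith [sq_nonneg ((u x).re + (v x).re), sq_nonneg ((u x).im + (v x).im)]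
        · nlinarith [sq_nonneg ((u x).re - (v x).re), sq_nonneg ((u x).im - (v x).im)]
      have h2 : |1 + (W x - E)| ≤ L := by
        simp only [L]
        rw [abs_le]
        have h3 := h0 x
        have h4 := hM x
        have h5 := le_abs_self M
        have h6 := le_abs_self E
        have h7 := neg_abs_le E
        have h8 := abs_nonneg M
        constructor <;> linarith
      calc |2 * ((u x).re * (v x).re + (u x).im * (v x).im)| * |1 + (W x - E)|
          ≤ N x * L := mul_le_mul h1 h2 (abs_nonneg _) (hN0 x)
        _ = L * N x := mul_comm _ _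
    have hN5 : N 5 = 0 := by
      simp [N, f, hu5, hv5]
    have hNz : ∀ x, N x = 0 := by
      intro x
      apply le_antisymm _ (hN0 x)
      rcases le_total 5 x with hx | hx
      · have hd : ∀ y, HasDerivAt (fun y => N y * exp (-L * y))
            (2 * ((u y).re * (v y).re + (u y).im * (v y).im) * (1 + (W y - E)) * exp (-L * y)
              + N y * (exp (-L * y) * -L)) y := by
          intro y
          have : HasDerivAt (fun y : ℝ => -L * y) (-L) y := by
            simpa using (hasDerivAt_id y).const_mul (-L)
          exact (hN1 y).mul this.exp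
        have hanti : Antitone (fun y => N y * exp (-L * y)) := by
          apply antitone_of_deriv_nonpos (fun y => (hd y).differentiableAt)
          intro y
          rw [(hd y).deriv]
          have h1 := (abs_le.mp (hN2 y)).2
          have h2 := exp_pos (-L * y)
          nlinarith
        have h3 := hanti hx
        simp only [hN5, zero_mul] at h3
        have h2 := exp_pos (-L * x)
        by_contra hc
        push Not at hc
        have := mul_pos hc h2
        linarith
      · have hd : ∀ y, HasDerivAt (fun y => N y * exp (L * y))
            (2 * ((u y).re * (v y).re + (u y).im * (v y).im) * (1 + (W y - E)) * exp (L * y)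
              + N y * (exp (L * y) * L)) y := by
          intro y
          have : HasDerivAt (fun y : ℝ => L * y) L y := by
            simpa using (hasDerivAt_id y).const_mul L
          exact (hN1 y).mul this.exp
        have hmono : Monotone (fun y => N y * exp (L * y)) := by
          apply monotone_of_deriv_nonneg (fun y => (hd y).differentiableAt)
          intro y
          rw [(hd y).deriv]
          have h1 := (abs_le.mp (hN2 y)).1
          have h2 := exp_pos (L * y)
          nlinarith
        have h3 := hmono hx
        simp only [hN5, zero_mul] at h3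
        have h2 := exp_pos (L * x)
        by_contra hc
        push Not at hc
        have := mul_pos hc h2
        linarith
    intro x
    have h1 := hNz x
    have h2 : f x = 0 := by
      have h3 : 0 ≤ (v x).re * (v x).re + (v x).im * (v x).im := by
        nlinarith [sq_nonneg (v x).re, sq_nonneg (v x).im]
      have h4 := hf0 x
      simp only [N] at h1
      linarith
    rw [hfn] at h2
    exact norm_eq_zero.mp (pow_eq_zero_iff two_ne_zero |>.mp h2)
  rcases le_or_gt E 0 with hE | hE
  · -- `|u|²` is convex
    have h := zero_of_convex hf0 hfi hf1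
      (f2 := fun x => 2 * (((v x).re ^ 2 + (v x).im ^ 2) + (W x - E) * f x))
      (fun x => (hg1 x).const_mul 2) (fun x => by
        have h1 := h0 x
        have h2 := hf0 x
        have h3 : 0 ≤ (W x - E) * f x := mul_nonneg (by linarith) h2
        positivity)
    intro x
    have h2 := h x
    rw [hfn] at h2
    exact norm_eq_zero.mp (pow_eq_zero_iff two_ne_zero |>.mp h2)
  · apply hfinish
    -- the energy is constant on `[5, ∞)`
    let en : ℝ → ℝ := fun x => ((v x).re * (v x).re + (v x).im * (v x).im) + E * f x
    have hen1 : ∀ x, HasDerivAt en (2 * W x * ((u x).re * (v x).re + (u x).im * (v x).im)) x := by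
      intro x
      refine ((hasDerivAt_reconj (hv1 x) (hv1 x)).add ((hf1 x).const_mul E)).congr_deriv ?_
      rw [hre, him]
      ring
    have hen : ∀ x, 5 ≤ x → en x = en 5 := by
      intro x hx
      apply constant_of_has_deriv_right_zero (f := en) (a := 5) (b := x)
        (fun y _ => (hen1 y).continuousAt.continuousWithinAt) _ x ⟨hx, le_rfl⟩
      intro y hy
      have h1 := hen1 y
      rw [hout y (by rw [lt_abs]; left; linarith [hy.1])] at h1
      exact (h1.congr_deriv (by ring)).hasDerivWithinAt
    have hen0 : 0 ≤ en 5 := by
      have := hf0 5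
      simp only [en]
      nlinarith [sq_nonneg (v 5).re, sq_nonneg (v 5).im]
    have hzero : en 5 = 0 := by
      by_contra hne
      have hpos : 0 < en 5 := lt_of_le_of_ne hen0 (Ne.symm hne)
      -- integrate `g' = en - 2 E f`
      let gg : ℝ → ℝ := fun x => (u x).re * (v x).re + (u x).im * (v x).im
      have hgg : ∀ x, 5 ≤ x → HasDerivAt gg (en 5 - 2 * E * f x) x := by
        intro x hx
        have h1 := hg1 x
        rw [hout x (by rw [lt_abs]; left; linarith)] at h1
        refine h1.congr_deriv ?_
        rw [← hen x hx]
        simp only [en]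
        ring
      have hggb : ∀ x, 5 ≤ x → |gg x| ≤ (1 + 1 / E) * en 5 := by
        intro x hx
        have h1 := hen x hx
        have h2 : 0 ≤ (v x).re * (v x).re + (v x).im * (v x).im := by
          nlinarith [sq_nonneg (v x).re, sq_nonneg (v x).im]
        have h3 := hf0 x
        have h4 : |gg x| ≤ f x + ((v x).re * (v x).re + (v x).im * (v x).im) := by
          simp only [gg, f]
          rw [abs_le]
          constructor
          · nlinarith [sq_nonneg ((u x).re + (v x).re), sq_nonneg ((u x).im + (v x).im)]
          · nlinarith [sq_nonneg ((u x).re - (v x).re), sq_nonneg ((u x).im - (v x).im)]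
        have h5 : f x ≤ 1 / E * en 5 := by
          rw [← h1]
          simp only [en]
          rw [one_div, ← div_eq_inv_mul, le_div_iff₀ hE]
          linarith
        have h6 : (v x).re * (v x).re + (v x).im * (v x).im ≤ en 5 := by
          rw [← h1]
          simp only [en]
          nlinarith
        linarith
      have hI : ∀ b, 5 ≤ b → en 5 * (b - 5) ≤ 2 * E * (∫ x, f x) + 2 * ((1 + 1 / E) * en 5) := by
        intro b hb
        have hfc : Continuous f := by
          simp only [f]
          fun_prop
        have h1 : ∫ x in (5 : ℝ)..b, (en 5 - 2 * E * f x) = gg b - gg 5 := by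
          apply intervalIntegral.integral_eq_sub_of_hasDerivAt
          · intro x hx
            rw [uIcc_of_le hb] at hx
            exact hgg x hx.1
          · apply Continuous.intervalIntegrable
            fun_prop
        have h2 : ∫ x in (5 : ℝ)..b, (en 5 - 2 * E * f x)
            = en 5 * (b - 5) - 2 * E * ∫ x in (5 : ℝ)..b, f x := by
          rw [intervalIntegral.integral_sub (by simp) (by
            apply Continuous.intervalIntegrable; fun_prop), intervalIntegral.integral_const_mul]
          simp
          ring
        have h3 : ∫ x in (5 : ℝ)..b, f x ≤ ∫ x, f x := by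
          rw [intervalIntegral.integral_of_le hb]
          exact setIntegral_le_integral hfi (Eventually.of_forall hf0)
        have h4 := (abs_le.mp (hggb b hb)).2
        have h5 := (abs_le.mp (hggb 5 le_rfl)).1
        have h6 : 2 * E * ∫ x in (5 : ℝ)..b, f x ≤ 2 * E * ∫ x, f x :=
          mul_le_mul_of_nonneg_left h3 (by linarith)
        linarith
      set K : ℝ := 2 * E * (∫ x, f x) + 2 * ((1 + 1 / E) * en 5) with hK
      have hK0 : 0 ≤ K := by
        have : 0 ≤ ∫ x, f x := integral_nonneg hf0
        positivity
      have h7 := hI (5 + (K / en 5 + 1)) (by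
        have : 0 ≤ K / en 5 := by positivity
        linarith)
      have h8 : en 5 * (5 + (K / en 5 + 1) - 5) = K + en 5 := by
        field_simp
        ring
      rw [h8] at h7
      linarith
    have h1 : 0 ≤ (v 5).re * (v 5).re + (v 5).im * (v 5).im := by
      nlinarith [sq_nonneg (v 5).re, sq_nonneg (v 5).im]
    have h2 : 0 ≤ E * f 5 := mul_nonneg hE.le (hf0 5)
    simp only [en] at hzero
    have h3 : E * f 5 = 0 := by linarith
    have h4 : (v 5).re * (v 5).re + (v 5).im * (v 5).im = 0 := by linarith
    constructor
    · have h5 : f 5 = 0 := by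
        rcases mul_eq_zero.mp h3 with h | h
        · linarith
        · exact h
      rw [hfn] at h5
      exact norm_eq_zero.mp (pow_eq_zero_iff two_ne_zero |>.mp h5)
    · apply Complex.ext
      · simp only [Complex.zero_re]
        nlinarith [sq_nonneg (v 5).re, sq_nonneg (v 5).im]
      · simp only [Complex.zero_im]
        nlinarith [sq_nonneg (v 5).re, sq_nonneg (v 5).im]

variable (D : Data)

theorem Data.noEigenvalue (t : ℝ) : TD.NoEigenvalue (fun x => D.pot x t) := by
  obtain ⟨C, hC⟩ := D.smoothLocalized.bounded 0
  apply noEigenvalue_of_nonneg _ (fun x => D.V_nonneg _) C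
  · intro x
    have := hC (x, t)
    rw [norm_iteratedFDeriv_zero] at this
    exact le_trans (le_abs_self _) this
  · intro x hx
    exact D.V_out x t hx
  · exact D.cdV.continuous.comp (by fun_prop : Continuous fun x : ℝ => (x, t))

/-- Q2 in dimension one. -/
theorem main2 : ∃ V : ℝ → ℝ → ℝ, TD.SmoothLocalized V ∧ (∀ t, TD.NoEigenvalue (fun x => V x t)) ∧
    ∃ ψ : ℝ → ℝ → ℂ, TD.IsBoundState V ψ := by
  obtain ⟨D⟩ := exists_data
  exact ⟨D.pot, D.smoothLocalized, D.noEigenvalue, D.psi, D.isBoundState⟩

end Pool.Agent.H3R2
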