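import Pool.Agent.H3R2.Core

/-!
Positivity of the potential in Lagrangian coordinates.
-/

open Set Filter Topology Real
open scoped ContDiff

namespace Pool.Agent.H3R2

variable (P : Prof) (ν : ℝ) (w : ℝ → ℝ)

/-- log-derivative of the amplitude, and its Eulerian derivative -/
noncomputable def H1 (s t : ℝ) : ℝ := (w s - X2 P ν s t / (2 * X1 P ν s t)) / X1 P ν s t
noncomputable def H2 (s t : ℝ) : ℝ :=
  ((deriv w s - (X3 P ν s t * (2 * X1 P ν s t) - X2 P ν s t * (2 * X2 P ν s t)) /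
      (2 * X1 P ν s t) ^ 2) * X1 P ν s t - (w s - X2 P ν s t / (2 * X1 P ν s t)) * X2 P ν s t) /
    X1 P ν s t ^ 2 / X1 P ν s t

/-- The potential in Lagrangian coordinates -/
noncomputable def Vh (s t : ℝ) : ℝ :=
  H2 P ν w s t + H1 P ν w s t ^ 2 + Xt P ν s t ^ 2 / 4 - Tt P ν s t

lemma quantum (s t : ℝ) : H2 P ν w s t + H1 P ν w s t ^ 2 =
    (deriv w s + w s ^ 2) / X1 P ν s t ^ 2 - 2 * w s * X2 P ν s t / X1 P ν s t ^ 3
      + 5 / 4 * X2 P ν s t ^ 2 / X1 P ν s t ^ 4 - X3 P ν s t / (2 * X1 P ν s t ^ 3) := by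
  have h := (X1_pos P ν s t).ne'
  unfold H2 H1
  field_simp
  ring

lemma kinetic (s t : ℝ) : Xt P ν s t ^ 2 / 4 - Tt P ν s t =
    -1 + ν ^ 2 * ((P.a * P.f 1 s * cos (ν * t)) ^ 2 / 4 + (P.b * P.c 1 s * cos (2 * (ν * t))) ^ 2
      + P.a * P.f 0 s * cos (ν * t) / 2 - 2 * P.b * P.c 0 s * cos (2 * (ν * t))) := by
  have e1 := P.cross 1 1 le_rfl le_rfl s
  unfold Xt Tt
  have h1 := sin_sq_add_cos_sq (ν * t)
  have h2 := sin_sq_add_cos_sq (2 * (ν * t))
  linear_combination (-(ν ^ 2 * P.a * P.b * sin (ν * t) * sin (2 * (ν * t)))) * e1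

lemma kinetic_lower (s t : ℝ) : -1 - ν ^ 2 ≤ Xt P ν s t ^ 2 / 4 - Tt P ν s t := by
  rw [kinetic]
  have h1 : |P.a * P.f 0 s * cos (ν * t)| ≤ 1 / 4 := by
    rw [abs_mul, abs_mul, abs_of_pos P.a_pos]
    have := P.f_bd 0 (by norm_num) s
    have h2 := abs_cos_le_one (ν * t)
    have h3 : P.a * |P.f 0 s| ≤ P.a * P.K := mul_le_mul_of_nonneg_left this P.a_pos.le
    rw [P.a_mul_K] at h3
    have h4 : 0 ≤ P.a * |P.f 0 s| := mul_nonneg P.a_pos.le (abs_nonneg _)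
    nlinarith [abs_nonneg (cos (ν * t))]
  have h2 : |P.b * P.c 0 s * cos (2 * (ν * t))| ≤ 1 / 4 := by
    rw [abs_mul, abs_mul, abs_of_pos P.b_pos]
    have := P.c_bd 0 (by norm_num) s
    have h2 := abs_cos_le_one (2 * (ν * t))
    have h3 : P.b * |P.c 0 s| ≤ P.a * P.K := mul_le_mul P.b_le this (abs_nonneg _) P.a_pos.le
    rw [P.a_mul_K] at h3
    have h4 : 0 ≤ P.b * |P.c 0 s| := mul_nonneg P.b_pos.le (abs_nonneg _)
    nlinarith [abs_nonneg (cos (2 * (ν * t)))]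
  rw [abs_le] at h1 h2
  have h3 : -1 ≤ ((P.a * P.f 1 s * cos (ν * t)) ^ 2 / 4 + (P.b * P.c 1 s * cos (2 * (ν * t))) ^ 2
      + P.a * P.f 0 s * cos (ν * t) / 2 - 2 * P.b * P.c 0 s * cos (2 * (ν * t))) := by
    nlinarith [sq_nonneg (P.a * P.f 1 s * cos (ν * t)), sq_nonneg (P.b * P.c 1 s * cos (2 * (ν * t)))]
  nlinarith [sq_nonneg ν]

/-- the inequality used away from the core -/
lemma quantum_lower (E s x1 x2 x3 : ℝ) (hE : 0 ≤ E) (h1 : 1 / 2 ≤ x1) (h1' : x1 ≤ 3 / 2)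
    (h2 : |x2| ≤ 1 / 2) (h3 : |x3| ≤ 1 / 2) (hq : 0 ≤ E ^ 2 * s ^ 2 - E) :
    4 / 9 * (E ^ 2 * s ^ 2 - E) - 8 * (E * |s|) - 2 ≤
      (-E + (-E * s) ^ 2) / x1 ^ 2 - 2 * (-E * s) * x2 / x1 ^ 3
      + 5 / 4 * x2 ^ 2 / x1 ^ 4 - x3 / (2 * x1 ^ 3) := by
  have hx : 0 < x1 := by linarith
  have i3 : 1 / x1 ^ 3 ≤ 8 := by
    rw [div_le_iff₀ (by positivity)]
    have : (1 / 2 : ℝ) ^ 3 ≤ x1 ^ 3 := pow_le_pow_left₀ (by norm_num) h1 3
    norm_num at this
    linarith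
  have i3' : 0 ≤ 1 / x1 ^ 3 := by positivity
  have i2 : 4 / 9 ≤ 1 / x1 ^ 2 := by
    rw [le_div_iff₀ (by positivity)]
    nlinarith
  have t1 : 4 / 9 * (E ^ 2 * s ^ 2 - E) ≤ (-E + (-E * s) ^ 2) / x1 ^ 2 := by
    have : (-E + (-E * s) ^ 2) / x1 ^ 2 = (E ^ 2 * s ^ 2 - E) * (1 / x1 ^ 2) := by ring
    rw [this]
    nlinarith
  have t2 : -(8 * (E * |s|)) ≤ - 2 * (-E * s) * x2 / x1 ^ 3 := by
    have e : - 2 * (-E * s) * x2 / x1 ^ 3 = 2 * (E * s * x2) * (1 / x1 ^ 3) := by ring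
    rw [e]
    have h4 : |E * s * x2| ≤ E * |s| * (1 / 2) := by
      rw [abs_mul, abs_mul, abs_of_nonneg hE]
      exact mul_le_mul_of_nonneg_left h2 (by positivity)
    have h5 := (abs_le.mp h4).1
    have h6 : 0 ≤ E * |s| := by positivity
    have h7 : -(E * |s| * (1 / 2)) * (1 / x1 ^ 3) ≤ E * s * x2 * (1 / x1 ^ 3) :=
      mul_le_mul_of_nonneg_right h5 i3'
    nlinarith
  have t3 : 0 ≤ 5 / 4 * x2 ^ 2 / x1 ^ 4 := by positivity
  have t4 : x3 / (2 * x1 ^ 3) ≤ 2 := by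
    have e : x3 / (2 * x1 ^ 3) = x3 * (1 / x1 ^ 3) / 2 := by
      field_simp
    rw [e]
    have := (abs_le.mp h3).2
    nlinarith
  have e2 : - (2 * (-E * s) * x2 / x1 ^ 3) = - 2 * (-E * s) * x2 / x1 ^ 3 := by ring
  linarith

/-- `E` and `ν` -/
noncomputable def Prof.E : ℝ := 5000 / P.a ^ 4
noncomputable def Prof.nu : ℝ := 400 / P.a ^ 3

lemma Prof.E_pos : 0 < P.E := by
  have := P.a_pos
  unfold Prof.E
  positivity

lemma Prof.E_ge : 1 ≤ P.E := by
  have h := P.a_pos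
  have h1 := P.a_le
  unfold Prof.E
  rw [le_div_iff₀ (by positivity)]
  have : P.a ^ 4 ≤ 1 := pow_le_one₀ h.le (by linarith)
  linarith

lemma Prof.nu_pos : 0 < P.nu := by
  have := P.a_pos
  unfold Prof.nu
  positivity

lemma Prof.nu_sq : P.nu ^ 2 * P.a ^ 2 = 32 * P.E := by
  have := P.a_pos
  unfold Prof.nu Prof.E
  field_simp
  norm_num

lemma scalar_ineq (a E N r : ℝ) (ha : 0 < a) (ha' : a ≤ 1 / 4) (hE : E * a ^ 4 = 5000)
    (hN : N * a ^ 2 = 32 * E) (hr : a / 8 ≤ r) :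
    0 ≤ 4 / 9 * (E ^ 2 * r ^ 2 - E) - 8 * (E * r) - 2 - 1 - N ∧ 0 ≤ E ^ 2 * r ^ 2 - E := by
  have ha2 : 0 < a ^ 2 := by positivity
  have ha2' : a ^ 2 ≤ 1 / 16 := by nlinarith
  have ha4 : a ^ 4 ≤ 1 / 256 := by
    have : a ^ 4 = (a ^ 2) ^ 2 := by ring
    rw [this]
    nlinarith
  have hE1 : 1 ≤ E := by
    by_contra h
    push Not at h
    have : 0 < a ^ 4 := by positivity
    nlinarith
  have hE0 : 0 < E := by linarith
  -- `E a / 8 ≤ E r`
  have h1 : E * a / 8 ≤ E * r := by nlinarith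
  -- `E a ≥ 5000 / a^3`, in the form `E a^2 ≥ 80000`
  have h2 : 80000 ≤ E * a ^ 2 := by
    have : E * a ^ 4 = (E * a ^ 2) * a ^ 2 := by ring
    rw [this] at hE
    by_contra h
    push Not at h
    nlinarith
  have h3 : 320000 ≤ E * a := by
    have : E * a ^ 2 = (E * a) * a := by ring
    rw [this] at h2
    by_contra h
    push Not at h
    have : 0 < E * a := by positivity
    nlinarith
  have hr0 : 0 < r := by linarith
  have h4 : 40000 ≤ E * r := by linarith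
  -- `(E r)^2 ≥ (E a)^2/64`
  have h5 : (E * a) ^ 2 / 64 ≤ (E * r) ^ 2 := by nlinarith
  have h6 : (E * a) ^ 2 = E * (E * a ^ 2) := by ring
  -- N ≤ ... : N a^2 = 32 E; (E a)^2 = E * 5000 / a^2
  have h7 : N = 32 * E / a ^ 2 := by
    rw [eq_div_iff ha2.ne']
    exact hN
  have h8 : E * a ^ 2 = 5000 / a ^ 2 := by
    rw [eq_div_iff ha2.ne', ← hE]
    ring
  have h9 : (E * a) ^ 2 = 5000 / 32 * N := by
    rw [h6, h8, h7]
    field_simp
  have h10 : 16 * (32 * E) ≤ N := by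
    rw [h7, le_div_iff₀ ha2]
    nlinarith
  have h11 : E ^ 2 * r ^ 2 = (E * r) ^ 2 := by ring
  rw [h11]
  constructor
  · nlinarith
  · nlinarith

lemma Vh_core (hw1 : ∀ s, |s| < 3 → w =ᶠ[𝓝 s] fun s => -P.E * s) (s t : ℝ)
    (hs1 : |s| < 1) : Vh P P.nu w s t =
      -P.E + (P.E * s) ^ 2 - 1 + P.nu ^ 2 * (P.a ^ 2 / 8 + P.a * s * cos (P.nu * t) / 2) := by
  have h3 : |s| < 3 := by linarith
  have hw : w s = -P.E * s := (hw1 s h3).eq_of_nhds
  have hw' : deriv w s = -P.E := by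
    rw [(hw1 s h3).deriv_eq]
    have : HasDerivAt (fun s : ℝ => -P.E * s) (-P.E) s := by
      simpa using (hasDerivAt_id s).const_mul (-P.E)
    exact this.deriv
  unfold Vh
  have e1 : X1 P P.nu s t = 1 := by
    unfold X1
    rw [P.f_in s hs1 2 le_rfl, P.c_in s (by linarith) 2 (by norm_num)]
    ring
  have e2 : X2 P P.nu s t = 0 := by
    unfold X2
    rw [P.f_in s hs1 3 (by norm_num), P.c_in s (by linarith) 3 (by norm_num)]
    ring
  have e3 : X3 P P.nu s t = 0 := by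
    unfold X3
    rw [P.f_in s hs1 4 (by norm_num), P.c_in s (by linarith) 4 (by norm_num)]
    ring
  have e4 := quantum P P.nu w s t
  rw [e1, e2, e3, hw, hw'] at e4
  have e5 := kinetic P P.nu s t
  rw [P.f_in0 s hs1, P.f_in1 s hs1, P.c_in0 s (by linarith), P.c_in s (by linarith) 1 le_rfl,
    cos_two_mul] at e5
  have e7 : H2 P P.nu w s t + H1 P P.nu w s t ^ 2 + Xt P P.nu s t ^ 2 / 4 - Tt P P.nu s t =
    (H2 P P.nu w s t + H1 P P.nu w s t ^ 2) + (Xt P P.nu s t ^ 2 / 4 - Tt P P.nu s t) := by ring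
  rw [e7, e4, e5]
  unfold Prof.b
  ring

lemma Vh_nonneg (hw1 : ∀ s, |s| < 3 → w =ᶠ[𝓝 s] fun s => -P.E * s)
    (hw2 : ∀ s, 3 ≤ |s| → 0 ≤ deriv w s + w s ^ 2 - 1) (s t : ℝ) : 0 ≤ Vh P P.nu w s t := by
  have hE := P.E_pos
  unfold Vh
  by_cases h3 : |s| < 3
  · have hw : w s = -P.E * s := (hw1 s h3).eq_of_nhds
    have hw' : deriv w s = -P.E := by
      rw [(hw1 s h3).deriv_eq]
      have : HasDerivAt (fun s : ℝ => -P.E * s) (-P.E) s := by
        simpa using (hasDerivAt_id s).const_mul (-P.E)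
      exact this.deriv
    by_cases h1 : |s| < P.a / 8
    · -- core
      have hs1 : |s| < 1 := by
        have := P.a_le
        linarith
      have e6 := Vh_core P w hw1 s t hs1
      unfold Vh at e6
      rw [e6]
      have h4 : |P.a * s * cos (P.nu * t)| ≤ P.a ^ 2 / 8 := by
        rw [abs_mul, abs_mul, abs_of_pos P.a_pos]
        have h5 := abs_cos_le_one (P.nu * t)
        have h6 : P.a * |s| ≤ P.a * (P.a / 8) := mul_le_mul_of_nonneg_left h1.le P.a_pos.le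
        have h7 : 0 ≤ P.a * |s| := mul_nonneg P.a_pos.le (abs_nonneg _)
        nlinarith [abs_nonneg (cos (P.nu * t))]
      have h5 := (abs_le.mp h4).1
      have h6 : P.a ^ 2 / 16 ≤ P.a ^ 2 / 8 + P.a * s * cos (P.nu * t) / 2 := by linarith
      have h7 : P.nu ^ 2 * (P.a ^ 2 / 16) ≤
          P.nu ^ 2 * (P.a ^ 2 / 8 + P.a * s * cos (P.nu * t) / 2) :=
        mul_le_mul_of_nonneg_left h6 (sq_nonneg _)
      have h8 := P.nu_sq
      have h9 := P.E_ge
      nlinarith [sq_nonneg (P.E * s)]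
    · push Not at h1
      obtain ⟨i1, i2⟩ := scalar_ineq P.a P.E (P.nu ^ 2) |s| P.a_pos P.a_le
        (by unfold Prof.E; have := P.a_pos; field_simp) P.nu_sq h1
      rw [sq_abs] at i1 i2
      have e4 := quantum P P.nu w s t
      have hb := X1_bd P P.nu s t
      have e5 := quantum_lower P.E s (X1 P P.nu s t) (X2 P P.nu s t) (X3 P P.nu s t) hE.le hb.1 hb.2
        (X2_bd P P.nu s t) (X3_bd P P.nu s t) i2
      rw [hw, hw'] at e4
      have e6 := kinetic_lower P P.nu s t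
      linarith
  · push Not at h3
    have e1 : X1 P P.nu s t = 1 := by
      unfold X1
      rw [P.f_out s (by linarith) 2, P.c_out s (by linarith) 2]
      ring
    have e2 : X2 P P.nu s t = 0 := by
      unfold X2
      rw [P.f_out s (by linarith) 3, P.c_out s (by linarith) 3]
      ring
    have e3 : X3 P P.nu s t = 0 := by
      unfold X3
      rw [P.f_out s (by linarith) 4, P.c_out s (by linarith) 4]
      ring
    have e4 := quantum P P.nu w s t
    rw [e1, e2, e3] at e4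
    have e5 := kinetic P P.nu s t
    rw [P.f_out s (by linarith) 1, P.f_out s (by linarith) 0, P.c_out s (by linarith) 1,
      P.c_out s (by linarith) 0] at e5
    have h4 := hw2 s h3
    have e6 : H2 P P.nu w s t + H1 P P.nu w s t ^ 2 + Xt P P.nu s t ^ 2 / 4 - Tt P P.nu s t =
        deriv w s + w s ^ 2 - 1 := by
      have e7 : H2 P P.nu w s t + H1 P P.nu w s t ^ 2 + Xt P P.nu s t ^ 2 / 4 - Tt P P.nu s t =
          (H2 P P.nu w s t + H1 P P.nu w s t ^ 2) + (Xt P P.nu s t ^ 2 / 4 - Tt P P.nu s t) := by ring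
      rw [e7, e4, e5]
      ring
    rw [e6]
    exact h4

/-- outside `|s| ≤ 4` the potential vanishes -/
lemma Vh_out (hw3 : ∀ s, 4 ≤ s → w s = -1) (hw4 : ∀ s, s ≤ -4 → w s = 1) (s t : ℝ)
    (hs : 4 < |s|) : Vh P ν w s t = 0 := by
  have hd : deriv w s = 0 ∧ w s ^ 2 = 1 := by
    rcases lt_abs.mp hs with h | h
    · have h1 : w =ᶠ[𝓝 s] fun _ => -1 := by
        filter_upwards [lt_mem_nhds h] with s' hs'
        exact hw3 s' hs'.le
      rw [h1.deriv_eq, h1.eq_of_nhds]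
      simp
    · have h1 : w =ᶠ[𝓝 s] fun _ => 1 := by
        filter_upwards [gt_mem_nhds (show s < -4 by linarith)] with s' hs'
        exact hw4 s' hs'.le
      rw [h1.deriv_eq, h1.eq_of_nhds]
      simp
  unfold Vh
  have e1 : X1 P ν s t = 1 := by
    unfold X1
    rw [P.f_out s (by linarith) 2, P.c_out s (by linarith) 2]
    ring
  have e2 : X2 P ν s t = 0 := by
    unfold X2
    rw [P.f_out s (by linarith) 3, P.c_out s (by linarith) 3]
    ring
  have e3 : X3 P ν s t = 0 := by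
    unfold X3
    rw [P.f_out s (by linarith) 4, P.c_out s (by linarith) 4]
    ring
  have e4 := quantum P ν w s t
  rw [e1, e2, e3, hd.1, hd.2] at e4
  have e5 := kinetic P ν s t
  rw [P.f_out s (by linarith) 1, P.f_out s (by linarith) 0, P.c_out s (by linarith) 1,
    P.c_out s (by linarith) 0] at e5
  have e7 : H2 P ν w s t + H1 P ν w s t ^ 2 + Xt P ν s t ^ 2 / 4 - Tt P ν s t =
      (H2 P ν w s t + H1 P ν w s t ^ 2) + (Xt P ν s t ^ 2 / 4 - Tt P ν s t) := by ring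
  rw [e7, e4, e5]
  ring

end Pool.Agent.H3R2
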