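import Mathlib

/-!
Time-dependent Schroedinger equation on the line: definitions used in the statements.
-/

open Set Filter Topology MeasureTheory
open scoped ContDiff NNReal

namespace Pool.Agent.H3R2.TD

/-- `⟨x⟩ = (1 + x²)^{1/2}`. -/
noncomputable def jap (x : ℝ) : ℝ := Real.sqrt (1 + x ^ 2)

/-- `V(x,t)` is `C^∞` on `ℝ²`, it and all its derivatives are bounded, and it is localized in space
uniformly in time: for every `N` there is `C_N` with `|V(x,t)| ≤ C_N ⟨x⟩^{-N}`. -/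
structure SmoothLocalized (V : ℝ → ℝ → ℝ) : Prop where
  smooth : ContDiff ℝ ∞ (fun p : ℝ × ℝ => V p.1 p.2)
  bounded : ∀ k : ℕ, ∃ C : ℝ, ∀ p : ℝ × ℝ,
    ‖iteratedFDeriv ℝ k (fun p : ℝ × ℝ => V p.1 p.2) p‖ ≤ C
  localized : ∀ N : ℕ, ∃ C : ℝ, ∀ x t : ℝ, |V x t| ≤ C / jap x ^ N

/-- Admissible potentials (dimension one): smooth, bounded with bounded derivatives, localized,
`V ≥ 0` and `V ≢ 0`. -/
structure Admissible (V : ℝ → ℝ → ℝ) : Prop extends SmoothLocalized V where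
  nonneg : ∀ x t, 0 ≤ V x t
  ne_zero : ∃ x t, V x t ≠ 0

/-- `ψ(t,x)` is a solution of `i ∂_t ψ = -∂_x² ψ + V ψ` on `ℝ × ℝ`, for all times, in the classical
sense (`ψ` is `C^∞` on `ℝ²` and the equation holds at every point), with `ψ ∈ C(ℝ; L²(ℝ))`. -/
structure IsSolution (V : ℝ → ℝ → ℝ) (ψ : ℝ → ℝ → ℂ) : Prop where
  smooth : ContDiff ℝ ∞ (fun p : ℝ × ℝ => ψ p.1 p.2)
  curve : ∃ Ψ : ℝ → Lp ℂ 2 (volume : Measure ℝ), Continuous Ψ ∧ ∀ t, Ψ t =ᵐ[volume] ψ t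
  eqn : ∀ t x, Complex.I * deriv (fun s => ψ s x) t
    = -iteratedDeriv 2 (ψ t) x + (V x t : ℂ) * ψ t x

/-- A bound state (localized solution): a solution `ψ ≢ 0` such that for some `δ > 0`
the norm of `⟨x⟩^δ ψ(t)` in `L²` is bounded uniformly in `t ∈ ℝ`. -/
structure IsBoundState (V : ℝ → ℝ → ℝ) (ψ : ℝ → ℝ → ℂ) : Prop extends IsSolution V ψ where
  ne_zero : ∃ t x, ψ t x ≠ 0
  bound : ∃ δ : ℝ, 0 < δ ∧ ∃ C : ℝ≥0, ∀ t : ℝ,
    eLpNorm (fun x : ℝ => ((jap x ^ δ : ℝ) : ℂ) * ψ t x) 2 volume ≤ C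

/-- `-d²/dx² + W` on `L²(ℝ)` has no bound state (no eigenvalue): if `u ∈ L²(ℝ)` is in `H²_loc`
(with first derivative `v` and second derivative `z ∈ L²_loc`) and `-u'' + W u = E u` for some real
number `E`, then `u = 0`. -/
def NoEigenvalue (W : ℝ → ℝ) : Prop :=
  ∀ (E : ℝ) (u v z : ℝ → ℂ), MemLp u 2 volume →
    (∀ a b : ℝ, MemLp z 2 (volume.restrict (Icc a b))) →
    (∀ x : ℝ, u x = u 0 + ∫ s in (0 : ℝ)..x, v s) →
    (∀ x : ℝ, v x = v 0 + ∫ s in (0 : ℝ)..x, z s) →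
    (∀ᵐ x, -z x + (W x : ℂ) * u x = (E : ℂ) * u x) → ∀ x, u x = 0

end Pool.Agent.H3R2.TD
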