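import Pool.Agent.H3R2.Sol
import Pool.Agent.H3R2.TDDefs

/-!
Regularity, support and decay.
-/

open Set Filter Topology Real MeasureTheory
open scoped ContDiff

namespace Pool.Agent.H3R2

variable (D : Data)

lemma cdH1 (P : Prof) (ν : ℝ) {w : ℝ → ℝ} (hw : ContDiff ℝ ∞ w) :
    ContDiff ℝ ∞ (fun p : ℝ × ℝ => H1 P ν w p.1 p.2) := by
  unfold H1
  have hp : ∀ p : ℝ × ℝ, X1 P ν p.1 p.2 ≠ 0 := fun p => (X1_pos P ν p.1 p.2).ne'
  exact ((hw.comp contDiff_fst).sub ((cdX2 P ν).div (contDiff_const.mul (cdX1 P ν))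
    (fun p => mul_ne_zero two_ne_zero (hp p)))).div (cdX1 P ν) hp

lemma cdH2 (P : Prof) (ν : ℝ) {w : ℝ → ℝ} (hw : ContDiff ℝ ∞ w) :
    ContDiff ℝ ∞ (fun p : ℝ × ℝ => H2 P ν w p.1 p.2) := by
  unfold H2
  have hp : ∀ p : ℝ × ℝ, X1 P ν p.1 p.2 ≠ 0 := fun p => (X1_pos P ν p.1 p.2).ne'
  have hw' : ContDiff ℝ ∞ (deriv w) := (contDiff_infty_iff_deriv.mp hw).2
  have c1 := cdX1 P ν
  have c2 := cdX2 P ν
  have c3 := cdX3 P ν
  have c21 : ContDiff ℝ ∞ (fun p : ℝ × ℝ => 2 * X1 P ν p.1 p.2) := contDiff_const.mul c1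
  have c22 : ContDiff ℝ ∞ (fun p : ℝ × ℝ => 2 * X2 P ν p.1 p.2) := contDiff_const.mul c2
  exact (((((hw'.comp contDiff_fst).sub (((c3.mul c21).sub (c2.mul c22)).div (c21.pow 2)
    (fun p => pow_ne_zero 2 (mul_ne_zero two_ne_zero (hp p))))).mul c1).sub
    (((hw.comp contDiff_fst).sub (c2.div c21 (fun p => mul_ne_zero two_ne_zero (hp p)))).mul c2)).div
    (c1.pow 2) (fun p => pow_ne_zero 2 (hp p))).div c1 hp

lemma cdVh (P : Prof) (ν : ℝ) {w : ℝ → ℝ} (hw : ContDiff ℝ ∞ w) :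
    ContDiff ℝ ∞ (fun p : ℝ × ℝ => Vh P ν w p.1 p.2) := by
  unfold Vh
  exact (((cdH2 P ν hw).add ((cdH1 P ν hw).pow 2)).add (((cdXt P ν).pow 2).div_const 4)).sub
    (cdTt P ν)

lemma Data.cd_yp : ContDiff ℝ ∞ (fun p : ℝ × ℝ => (D.y p, p.2)) := D.hy.prodMk contDiff_snd

lemma Data.cdV : ContDiff ℝ ∞ D.V := by
  have h : ContDiff ℝ ∞ ((fun p : ℝ × ℝ => Vh D.P D.P.nu D.w p.1 p.2) ∘ fun p => (D.y p, p.2)) :=
    (cdVh D.P D.P.nu D.hw).comp D.cd_yp
  have e : D.V = (fun p : ℝ × ℝ => Vh D.P D.P.nu D.w p.1 p.2) ∘ fun p => (D.y p, p.2) := by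
    funext p
    rfl
  rw [e]
  exact h

lemma Data.cdh : ContDiff ℝ ∞ (fun p : ℝ × ℝ => D.h p.1 p.2) := by
  unfold Data.h
  have h1 : ContDiff ℝ ∞ (fun p : ℝ × ℝ => D.g (D.y p)) := D.hg.comp D.hy
  have h2 : ContDiff ℝ ∞ (fun p : ℝ × ℝ => X1 D.P D.P.nu (D.y p) p.2) :=
    (cdX1 D.P D.P.nu).comp D.cd_yp
  exact h1.sub ((h2.log (fun p => (X1_pos D.P D.P.nu _ _).ne')).div_const 2)

lemma Data.cdth : ContDiff ℝ ∞ (fun p : ℝ × ℝ => D.th p.1 p.2) := (cdT D.P D.P.nu).comp D.cd_yp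

lemma Data.cdpsi : ContDiff ℝ ∞ (fun p : ℝ × ℝ => D.psi p.1 p.2) := by
  unfold Data.psi
  have hsw : ContDiff ℝ ∞ (fun p : ℝ × ℝ => (p.2, p.1)) := contDiff_snd.prodMk contDiff_fst
  have h1 : ContDiff ℝ ∞ (fun p : ℝ × ℝ => D.h p.2 p.1) := D.cdh.comp hsw
  have h2 : ContDiff ℝ ∞ (fun p : ℝ × ℝ => D.th p.2 p.1) := D.cdth.comp hsw
  have h3 : ContDiff ℝ ∞ (fun p : ℝ × ℝ => ((D.h p.2 p.1 : ℝ) : ℂ)) :=
    Complex.ofRealCLM.contDiff.comp h1
  have h4 : ContDiff ℝ ∞ (fun p : ℝ × ℝ => ((D.th p.2 p.1 : ℝ) : ℂ)) :=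
    Complex.ofRealCLM.contDiff.comp h2
  exact (h3.add (h4.mul contDiff_const)).cexp

/-! ### static exterior -/

lemma X_out (P : Prof) (ν s t : ℝ) (hs : 5 / 2 < |s|) : X P ν s t = s := by
  unfold X
  rw [P.f_out s (by linarith) 1, P.c_out s hs 1]
  ring

lemma Data.y_out (x t : ℝ) (hx : 5 / 2 < |x|) : D.y (x, t) = x := by
  have h := D.hyX x t
  rwa [X_out D.P D.P.nu x t hx] at h

lemma Data.V_out (x t : ℝ) (hx : 4 < |x|) : D.V (x, t) = 0 := by
  unfold Data.V
  simp only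
  rw [D.y_out x t (by linarith)]
  exact Vh_out D.P D.P.nu D.w D.hw3 D.hw4 x t hx

/-! ### periodicity -/

noncomputable def Data.per : ℝ := 2 * π / D.P.nu

lemma Data.per_pos : 0 < D.per := by
  unfold Data.per
  have := D.P.nu_pos
  positivity

lemma Data.nu_per (t : ℝ) : D.P.nu * (t + D.per) = D.P.nu * t + 2 * π := by
  unfold Data.per
  have := D.P.nu_pos
  field_simp

lemma Data.cos1_per (t : ℝ) : cos (D.P.nu * (t + D.per)) = cos (D.P.nu * t) := by
  rw [D.nu_per, cos_add_two_pi]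
lemma Data.sin1_per (t : ℝ) : sin (D.P.nu * (t + D.per)) = sin (D.P.nu * t) := by
  rw [D.nu_per, sin_add_two_pi]
lemma Data.cos2_per (t : ℝ) : cos (2 * (D.P.nu * (t + D.per))) = cos (2 * (D.P.nu * t)) := by
  rw [D.nu_per, show 2 * (D.P.nu * t + 2 * π) = 2 * (D.P.nu * t) + 2 * π + 2 * π by ring,
    cos_add_two_pi, cos_add_two_pi]
lemma Data.sin2_per (t : ℝ) : sin (2 * (D.P.nu * (t + D.per))) = sin (2 * (D.P.nu * t)) := by
  rw [D.nu_per, show 2 * (D.P.nu * t + 2 * π) = 2 * (D.P.nu * t) + 2 * π + 2 * π by ring,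
    sin_add_two_pi, sin_add_two_pi]

lemma Data.X_per (s t : ℝ) : X D.P D.P.nu s (t + D.per) = X D.P D.P.nu s t := by
  unfold X
  rw [D.cos1_per, D.cos2_per]

lemma Data.y_per (x t : ℝ) : D.y (x, t + D.per) = D.y (x, t) := by
  have h := D.hyX (D.y (x, t)) (t + D.per)
  rw [D.X_per, D.hXy] at h
  exact h

lemma Data.V_per (x t : ℝ) : D.V (x, t + D.per) = D.V (x, t) := by
  unfold Data.V
  simp only
  rw [D.y_per]
  unfold Vh H2 H1 Xt Tt X1 X2 X3
  rw [D.cos1_per, D.cos2_per, D.sin1_per, D.sin2_per]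

/-- A smooth function on the plane, periodic in the second variable and supported in a strip, has
bounded derivatives. -/
lemma bounded_of_periodic {V : ℝ × ℝ → ℝ} (hV : ContDiff ℝ ∞ V) (R per : ℝ) (hper : 0 < per)
    (hout : ∀ x t, R < |x| → V (x, t) = 0) (hp : ∀ x t, V (x, t + per) = V (x, t)) (k : ℕ) :
    ∃ C : ℝ, ∀ p, ‖iteratedFDeriv ℝ k V p‖ ≤ C := by
  have hcont : Continuous (iteratedFDeriv ℝ k V) := hV.continuous_iteratedFDeriv (by exact_mod_cast le_top)
  obtain ⟨C, hC⟩ := ((isCompact_Icc (a := -R) (b := R)).prod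
    (isCompact_Icc (a := (0 : ℝ)) (b := per))).exists_bound_of_continuousOn hcont.continuousOn
  refine ⟨max C 0, ?_⟩
  have hperiodic : ∀ p, iteratedFDeriv ℝ k V (p + (0, per)) = iteratedFDeriv ℝ k V p := by
    intro p
    rw [← iteratedFDeriv_comp_add_right]
    congr 1
    funext q
    have := hp q.1 q.2
    have e : q + (0, per) = (q.1, q.2 + per) := by
      ext <;> simp
    rw [e]
    exact this
  have hint : ∀ (n : ℤ) (p : ℝ × ℝ), iteratedFDeriv ℝ k V (p + (0, n * per)) = iteratedFDeriv ℝ k V p := by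
    intro n
    induction n using Int.induction_on with
    | zero =>
      intro p
      have e : p + (0, ((0 : ℤ) : ℝ) * per) = p := by
        ext <;> simp
      rw [e]
    | succ n ih =>
      intro p
      have e : p + (0, ((n : ℤ) + 1 : ℤ) * per) = (p + (0, (n : ℤ) * per)) + (0, per) := by
        ext
        · simp
        · simp only [Prod.snd_add]
          push_cast
          ring
      rw [e, hperiodic, ih]
    | pred n ih =>
      intro p
      have e : (p + (0, (-(n : ℤ) - 1 : ℤ) * per)) + (0, per) = p + (0, (-(n : ℤ) : ℤ) * per) := by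
        ext
        · simp
        · simp only [Prod.snd_add]
          push_cast
          ring
      rw [← hperiodic, e, ih]
  intro p
  by_cases hx : |p.1| ≤ R
  · -- reduce to the fundamental domain
    have h1 : iteratedFDeriv ℝ k V p = iteratedFDeriv ℝ k V (p.1, toIcoMod hper 0 p.2) := by
      have := hint (-(toIcoDiv hper 0 p.2)) p
      rw [← this]
      congr 1
      ext
      · simp
      · simp only [Prod.snd_add, toIcoMod]
        push_cast
        simp only [zsmul_eq_mul]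
        ring
    rw [h1]
    refine le_trans (hC _ ?_) (le_max_left _ _)
    have h2 := toIcoMod_mem_Ico hper 0 p.2
    simp only [zero_add] at h2
    exact ⟨abs_le.mp hx, h2.1, h2.2.le⟩
  · push Not at hx
    have h1 : V =ᶠ[𝓝 p] fun _ => 0 := by
      have : ∀ᶠ q : ℝ × ℝ in 𝓝 p, R < |q.1| :=
        ((continuous_abs.comp continuous_fst).tendsto p).eventually (lt_mem_nhds hx)
      filter_upwards [this] with q hq
      exact hout q.1 q.2 hq
    have h2 : iteratedFDeriv ℝ k V p = 0 := by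
      rw [(h1.iteratedFDeriv ℝ k).eq_of_nhds]
      simp
    rw [h2, norm_zero]
    exact le_max_right _ _

/-! ### decay of the solution -/

lemma Data.g_right (x : ℝ) (hx : 4 ≤ x) : D.g x = D.g 4 - (x - 4) := by
  have := constant_of_has_deriv_right_zero (f := fun z => D.g z + z) (a := 4) (b := x)
    (D.hg.continuous.add continuous_id).continuousOn
    (fun z hz => by
      have := ((D.hgd z).add (hasDerivAt_id z))
      rw [D.hw3 z hz.1] at this
      have h2 : HasDerivAt (fun z => D.g z + z) 0 z := this.congr_deriv (by norm_num)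
      exact h2.hasDerivWithinAt) x ⟨hx, le_rfl⟩
  linarith

lemma Data.g_left (x : ℝ) (hx : x ≤ -4) : D.g x = D.g (-4) + (x + 4) := by
  have := constant_of_has_deriv_right_zero (f := fun z => D.g z - z) (a := x) (b := -4)
    (D.hg.continuous.sub continuous_id).continuousOn
    (fun z hz => by
      have := ((D.hgd z).sub (hasDerivAt_id z))
      rw [D.hw4 z hz.2.le] at this
      have h2 : HasDerivAt (fun z => D.g z - z) 0 z := this.congr_deriv (by norm_num)
      exact h2.hasDerivWithinAt) (-4) ⟨hx, le_rfl⟩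
  linarith

lemma Data.psi_norm (t x : ℝ) : ‖D.psi t x‖ = exp (D.h x t) := by
  unfold Data.psi
  rw [Complex.norm_exp]
  simp

lemma Data.decay : ∃ C : ℝ, 0 < C ∧ ∀ t x, ‖D.psi t x‖ ≤ C * exp (-|x|) := by
  obtain ⟨G, hG⟩ := (isCompact_Icc (a := (-5 : ℝ)) (b := 5)).exists_bound_of_continuousOn
    D.hg.continuous.continuousOn
  have hX1 : ∀ x t, -(log (X1 D.P D.P.nu (D.y (x, t)) t) / 2) ≤ 1 := by
    intro x t
    have h1 := (X1_bd D.P D.P.nu (D.y (x, t)) t).1
    have h2 : log (1 / 2) ≤ log (X1 D.P D.P.nu (D.y (x, t)) t) := log_le_log (by norm_num) h1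
    have h3 : -1 ≤ log (1 / 2 : ℝ) := by
      rw [one_div, log_inv]
      have := Real.log_two_lt_d9
      linarith
    linarith
  refine ⟨exp (G + 6), exp_pos _, fun t x => ?_⟩
  rw [D.psi_norm, ← exp_add]
  apply exp_le_exp.mpr
  unfold Data.h
  have h1 := hX1 x t
  by_cases hx : |x| ≤ 4
  · have h2 : |D.y (x, t)| ≤ 5 := by
      have h3 := X_sub D.P D.P.nu (D.y (x, t)) t
      rw [D.hXy] at h3
      rw [abs_le] at *
      constructor <;> linarith
    have h3 := hG (D.y (x, t)) (abs_le.mp h2)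
    have h4 := le_trans (le_abs_self _) h3
    linarith
  · push Not at hx
    rw [D.y_out x t (by linarith)] at h1 ⊢
    rcases lt_abs.mp hx with h | h
    · rw [D.g_right x h.le, abs_of_pos (by linarith)]
      have h4 := le_trans (le_abs_self _) (hG 4 (by norm_num))
      linarith
    · rw [D.g_left x (by linarith), abs_of_neg (by linarith)]
      have h4 := le_trans (le_abs_self _) (hG (-4) (by norm_num))
      linarith

end Pool.Agent.H3R2
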