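import Pool.Agent.H3R2.Pos

/-!
The potential and the solution in Eulerian coordinates.
-/

open Set Filter Topology Real MeasureTheory
open scoped ContDiff

namespace Pool.Agent.H3R2

/-- Data of the construction. -/
structure Data where
  P : Prof
  w : ℝ → ℝ
  hw : ContDiff ℝ ∞ w
  hw1 : ∀ s, |s| < 3 → w =ᶠ[𝓝 s] fun s => -P.E * s
  hw2 : ∀ s, 3 ≤ |s| → 0 ≤ deriv w s + w s ^ 2 - 1
  hw3 : ∀ s, 4 ≤ s → w s = -1
  hw4 : ∀ s, s ≤ -4 → w s = 1
  g : ℝ → ℝ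
  hg : ContDiff ℝ ∞ g
  hgd : ∀ s, HasDerivAt g (w s) s
  y : ℝ × ℝ → ℝ
  hy : ContDiff ℝ ∞ y
  hXy : ∀ x t, X P P.nu (y (x, t)) t = x
  hyX : ∀ s t, y (X P P.nu s t, t) = s

lemma exists_data : Nonempty Data := by
  obtain ⟨P⟩ := exists_prof
  obtain ⟨w, hw, hw1, hw2, hw3, hw4⟩ := exists_w P.E P.E_ge
  have hgd : ∀ s, HasDerivAt (fun s => ∫ u in (0 : ℝ)..s, w u) (w s) s := by
    intro s
    exact intervalIntegral.integral_hasDerivAt_right (hw.continuous.intervalIntegrable _ _)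
      (hw.continuous.stronglyMeasurableAtFilter _ _) hw.continuous.continuousAt
  have hg : ContDiff ℝ ∞ (fun s => ∫ u in (0 : ℝ)..s, w u) := by
    rw [contDiff_infty_iff_deriv]
    refine ⟨fun s => (hgd s).differentiableAt, ?_⟩
    have : deriv (fun s => ∫ u in (0 : ℝ)..s, w u) = w := by
      funext s
      exact (hgd s).deriv
    rw [this]
    exact hw
  obtain ⟨y, hy, h1, h2⟩ := exists_inverse (fun p => X P P.nu p.1 p.2) (fun p => X1 P P.nu p.1 p.2)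
    (cdX P P.nu) (fun s t => hX P P.nu s t) (fun p => X1_pos P P.nu p.1 p.2) (1 / 2)
    (fun s t => X_sub P P.nu s t)
  exact ⟨⟨P, w, hw, hw1, hw2, hw3, hw4, _, hg, hgd, y, hy, h1, h2⟩⟩

variable (D : Data)

/-- The time-dependent potential -/
noncomputable def Data.V (p : ℝ × ℝ) : ℝ := Vh D.P D.P.nu D.w (D.y p) p.2

/-- log-modulus and phase of the solution -/
noncomputable def Data.h (x t : ℝ) : ℝ :=
  D.g (D.y (x, t)) - log (X1 D.P D.P.nu (D.y (x, t)) t) / 2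
noncomputable def Data.th (x t : ℝ) : ℝ := T D.P D.P.nu (D.y (x, t)) t

/-- The solution -/
noncomputable def Data.psi (t x : ℝ) : ℂ :=
  Complex.exp ((D.h x t : ℂ) + (D.th x t : ℂ) * Complex.I)

lemma Data.V_nonneg (p : ℝ × ℝ) : 0 ≤ D.V p := Vh_nonneg D.P D.w D.hw1 D.hw2 _ _

/-! ### derivatives of `y` -/

/-- total derivative along `(u(t), t)` from partial derivatives -/
lemma chain_t {F : ℝ × ℝ → ℝ} (hF : Differentiable ℝ F) {u : ℝ → ℝ} {u' t a b : ℝ}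
    (hu : HasDerivAt u u' t) (ha : HasDerivAt (fun s => F (s, t)) a (u t))
    (hb : HasDerivAt (fun r => F (u t, r)) b t) :
    HasDerivAt (fun t => F (u t, t)) (a * u' + b) t := by
  have h2 : HasDerivAt (fun t => (u t, t)) (u', (1 : ℝ)) t := hu.prodMk (hasDerivAt_id t)
  have h3 : HasDerivAt (F ∘ fun t => (u t, t)) (fderiv ℝ F (u t, t) (u', 1)) t :=
    HasFDerivAt.comp_hasDerivAt t (hF (u t, t)).hasFDerivAt h2
  have h6 : fderiv ℝ F (u t, t) (1, 0) = a := by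
    have h7 : HasDerivAt (fun s : ℝ => (s, t)) ((1 : ℝ), (0 : ℝ)) (u t) :=
      (hasDerivAt_id _).prodMk (hasDerivAt_const _ t)
    have h8 : HasDerivAt (F ∘ fun s => (s, t)) (fderiv ℝ F (u t, t) (1, 0)) (u t) :=
      HasFDerivAt.comp_hasDerivAt (u t) (hF (u t, t)).hasFDerivAt h7
    exact h8.unique ha
  have h7 : fderiv ℝ F (u t, t) (0, 1) = b := by
    have h7 : HasDerivAt (fun r : ℝ => (u t, r)) ((0 : ℝ), (1 : ℝ)) t :=
      (hasDerivAt_const _ _).prodMk (hasDerivAt_id t)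
    have h8 : HasDerivAt (F ∘ fun r => (u t, r)) (fderiv ℝ F (u t, t) (0, 1)) t :=
      HasFDerivAt.comp_hasDerivAt t (hF (u t, t)).hasFDerivAt h7
    exact h8.unique hb
  refine h3.congr_deriv ?_
  have e : ((u', 1) : ℝ × ℝ) = u' • ((1 : ℝ), (0 : ℝ)) + ((0 : ℝ), (1 : ℝ)) := by
    ext <;> simp
  rw [e, map_add, map_smul, h6, h7, smul_eq_mul]
  ring

lemma Data.y_x (x t : ℝ) : HasDerivAt (fun x => D.y (x, t)) (1 / X1 D.P D.P.nu (D.y (x, t)) t) x := by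
  have hd : Differentiable ℝ D.y := D.hy.differentiable (by simp)
  have h1 : HasDerivAt (fun x => D.y (x, t)) (fderiv ℝ D.y (x, t) (1, 0)) x := by
    have h6 : HasDerivAt (fun x : ℝ => (x, t)) ((1 : ℝ), (0 : ℝ)) x :=
      (hasDerivAt_id x).prodMk (hasDerivAt_const x t)
    exact (hd (x, t)).hasFDerivAt.comp_hasDerivAt x h6
  have h2 := (hX D.P D.P.nu (D.y (x, t)) t).comp x h1
  have h3 : (fun s => X D.P D.P.nu s t) ∘ (fun x => D.y (x, t)) = fun x => x := by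
    funext x
    exact D.hXy x t
  rw [h3] at h2
  have h4 := h2.unique (hasDerivAt_id x)
  refine h1.congr_deriv ?_
  rw [eq_div_iff (X1_pos D.P D.P.nu _ t).ne', mul_comm]
  exact h4

lemma Data.y_t (x t : ℝ) : HasDerivAt (fun t => D.y (x, t))
    (-Xt D.P D.P.nu (D.y (x, t)) t / X1 D.P D.P.nu (D.y (x, t)) t) t := by
  have hd : Differentiable ℝ D.y := D.hy.differentiable (by simp)
  have h1 : HasDerivAt (fun t => D.y (x, t)) (fderiv ℝ D.y (x, t) (0, 1)) t := by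
    have h6 : HasDerivAt (fun t : ℝ => (x, t)) ((0 : ℝ), (1 : ℝ)) t :=
      (hasDerivAt_const t x).prodMk (hasDerivAt_id t)
    exact (hd (x, t)).hasFDerivAt.comp_hasDerivAt t h6
  have hF : Differentiable ℝ (fun p : ℝ × ℝ => X D.P D.P.nu p.1 p.2) :=
    (cdX D.P D.P.nu).differentiable (by simp)
  have h3 := chain_t hF h1 (hX D.P D.P.nu (D.y (x, t)) t) (hXt D.P D.P.nu (D.y (x, t)) t)
  have h4 : (fun t => X D.P D.P.nu (D.y (x, t)) t) = fun _ => x := by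
    funext t
    exact D.hXy x t
  simp only at h3
  rw [h4] at h3
  have h5 := h3.unique (hasDerivAt_const t x)
  refine h1.congr_deriv ?_
  rw [eq_div_iff (X1_pos D.P D.P.nu _ t).ne']
  linarith

/-! ### derivatives of the log-modulus and the phase -/

lemma Data.h_x (x t : ℝ) : HasDerivAt (fun x => D.h x t) (H1 D.P D.P.nu D.w (D.y (x, t)) t) x := by
  have hp := (X1_pos D.P D.P.nu (D.y (x, t)) t).ne'
  have hy := D.y_x x t
  have h1 := (D.hgd (D.y (x, t))).comp x hy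
  have h2 := (hX1 D.P D.P.nu (D.y (x, t)) t).comp x hy
  have h3 := (HasDerivAt.log h2 hp).div_const 2
  have h4 := h1.sub h3
  refine h4.congr_deriv ?_
  simp only [Function.comp, H1]
  field_simp

lemma Data.H1_x (x t : ℝ) : HasDerivAt (fun x => H1 D.P D.P.nu D.w (D.y (x, t)) t)
    (H2 D.P D.P.nu D.w (D.y (x, t)) t) x := by
  have hp := (X1_pos D.P D.P.nu (D.y (x, t)) t).ne'
  have hy := D.y_x x t
  have hwd : HasDerivAt D.w (deriv D.w (D.y (x, t))) (D.y (x, t)) :=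
    ((contDiff_infty_iff_deriv.mp D.hw).1 _).hasDerivAt
  have k1 := hX1 D.P D.P.nu (D.y (x, t)) t
  have k2 := hX2 D.P D.P.nu (D.y (x, t)) t
  have h1 : HasDerivAt (fun s => H1 D.P D.P.nu D.w s t)
      (((deriv D.w (D.y (x, t)) - (X3 D.P D.P.nu (D.y (x, t)) t * (2 * X1 D.P D.P.nu (D.y (x, t)) t)
        - X2 D.P D.P.nu (D.y (x, t)) t * (2 * X2 D.P D.P.nu (D.y (x, t)) t)) /
      (2 * X1 D.P D.P.nu (D.y (x, t)) t) ^ 2) * X1 D.P D.P.nu (D.y (x, t)) t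
      - (D.w (D.y (x, t)) - X2 D.P D.P.nu (D.y (x, t)) t / (2 * X1 D.P D.P.nu (D.y (x, t)) t))
        * X2 D.P D.P.nu (D.y (x, t)) t) / X1 D.P D.P.nu (D.y (x, t)) t ^ 2) (D.y (x, t)) := by
    unfold H1
    exact (hwd.sub (k2.div (k1.const_mul 2) (mul_ne_zero two_ne_zero hp))).div k1 hp
  have h2 := h1.comp x hy
  refine h2.congr_deriv ?_
  unfold H2
  rw [mul_one_div]

lemma Data.th_x (x t : ℝ) : HasDerivAt (fun x => D.th x t) (Xt D.P D.P.nu (D.y (x, t)) t / 2) x := by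
  have hp := (X1_pos D.P D.P.nu (D.y (x, t)) t).ne'
  have h := (hTs D.P D.P.nu (D.y (x, t)) t).comp x (D.y_x x t)
  refine h.congr_deriv ?_
  field_simp

lemma Data.th_xx (x t : ℝ) : HasDerivAt (fun x => Xt D.P D.P.nu (D.y (x, t)) t / 2)
    (X1t D.P D.P.nu (D.y (x, t)) t / X1 D.P D.P.nu (D.y (x, t)) t / 2) x := by
  have h := ((hXts D.P D.P.nu (D.y (x, t)) t).comp x (D.y_x x t)).div_const 2
  refine h.congr_deriv ?_
  rw [mul_one_div]

lemma Data.h_t (x t : ℝ) : HasDerivAt (fun t => D.h x t)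
    (-(X1t D.P D.P.nu (D.y (x, t)) t / X1 D.P D.P.nu (D.y (x, t)) t / 2)
      - H1 D.P D.P.nu D.w (D.y (x, t)) t * Xt D.P D.P.nu (D.y (x, t)) t) t := by
  have hp := (X1_pos D.P D.P.nu (D.y (x, t)) t).ne'
  have hy := D.y_t x t
  have h1 := (D.hgd (D.y (x, t))).comp t hy
  have hF : Differentiable ℝ (fun p : ℝ × ℝ => X1 D.P D.P.nu p.1 p.2) :=
    (cdX1 D.P D.P.nu).differentiable (by simp)
  have h2 := chain_t hF hy (hX1 D.P D.P.nu (D.y (x, t)) t) (hX1t D.P D.P.nu (D.y (x, t)) t)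
  have h3 := (HasDerivAt.log h2 hp).div_const 2
  have h4 := h1.sub h3
  refine h4.congr_deriv ?_
  simp only [H1]
  field_simp
  ring

lemma Data.th_t (x t : ℝ) : HasDerivAt (fun t => D.th x t)
    (Tt D.P D.P.nu (D.y (x, t)) t - Xt D.P D.P.nu (D.y (x, t)) t ^ 2 / 2) t := by
  have hp := (X1_pos D.P D.P.nu (D.y (x, t)) t).ne'
  have hF : Differentiable ℝ (fun p : ℝ × ℝ => T D.P D.P.nu p.1 p.2) :=
    (cdT D.P D.P.nu).differentiable (by simp)
  have h2 := chain_t hF (D.y_t x t) (hTs D.P D.P.nu (D.y (x, t)) t) (hTt D.P D.P.nu (D.y (x, t)) t)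
  refine h2.congr_deriv ?_
  field_simp
  ring

/-! ### the Schroedinger equation -/

lemma Data.psi_x (x t : ℝ) : HasDerivAt (fun x => D.psi t x)
    (((H1 D.P D.P.nu D.w (D.y (x, t)) t : ℂ)
      + ((Xt D.P D.P.nu (D.y (x, t)) t / 2 : ℝ) : ℂ) * Complex.I) * D.psi t x) x := by
  have h1 := (D.h_x x t).ofReal_comp
  have h2 := (D.th_x x t).ofReal_comp
  have h3 := (h1.add (h2.mul_const Complex.I)).cexp
  refine h3.congr_deriv ?_
  unfold Data.psi
  rw [mul_comm]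
  rfl

lemma Data.psi_xx (x t : ℝ) : HasDerivAt (fun x => ((H1 D.P D.P.nu D.w (D.y (x, t)) t : ℂ)
      + ((Xt D.P D.P.nu (D.y (x, t)) t / 2 : ℝ) : ℂ) * Complex.I) * D.psi t x)
    ((((H2 D.P D.P.nu D.w (D.y (x, t)) t : ℂ)
      + ((X1t D.P D.P.nu (D.y (x, t)) t / X1 D.P D.P.nu (D.y (x, t)) t / 2 : ℝ) : ℂ) * Complex.I)
      + ((H1 D.P D.P.nu D.w (D.y (x, t)) t : ℂ)
      + ((Xt D.P D.P.nu (D.y (x, t)) t / 2 : ℝ) : ℂ) * Complex.I) ^ 2) * D.psi t x) x := by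
  have h1 := (D.H1_x x t).ofReal_comp
  have h2 := (D.th_xx x t).ofReal_comp
  have h3 := (h1.add (h2.mul_const Complex.I)).mul (D.psi_x x t)
  refine h3.congr_deriv ?_
  simp only [Pi.add_apply]
  ring

lemma Data.psi_t (x t : ℝ) : HasDerivAt (fun t => D.psi t x)
    (((-(X1t D.P D.P.nu (D.y (x, t)) t / X1 D.P D.P.nu (D.y (x, t)) t / 2)
      - H1 D.P D.P.nu D.w (D.y (x, t)) t * Xt D.P D.P.nu (D.y (x, t)) t : ℝ) +
      ((Tt D.P D.P.nu (D.y (x, t)) t - Xt D.P D.P.nu (D.y (x, t)) t ^ 2 / 2 : ℝ) : ℂ) * Complex.I)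
        * D.psi t x) t := by
  have h1 := (D.h_t x t).ofReal_comp
  have h2 := (D.th_t x t).ofReal_comp
  have h3 := (h1.add (h2.mul_const Complex.I)).cexp
  refine h3.congr_deriv ?_
  unfold Data.psi
  rw [mul_comm]
  rfl

/-- `i ∂_t ψ = - ∂_x² ψ + V ψ` -/
theorem Data.pde (x t : ℝ) : Complex.I * deriv (fun t => D.psi t x) t =
    -deriv (deriv (fun x => D.psi t x)) x + (D.V (x, t) : ℂ) * D.psi t x := by
  have h1 : deriv (fun x => D.psi t x) = fun x => ((H1 D.P D.P.nu D.w (D.y (x, t)) t : ℂ)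
      + ((Xt D.P D.P.nu (D.y (x, t)) t / 2 : ℝ) : ℂ) * Complex.I) * D.psi t x := by
    funext x
    exact (D.psi_x x t).deriv
  rw [h1, (D.psi_xx x t).deriv, (D.psi_t x t).deriv]
  unfold Data.V Vh
  push_cast
  have hI : Complex.I ^ 2 = -1 := Complex.I_sq
  linear_combination (((Tt D.P D.P.nu (D.y (x, t)) t : ℂ) - (Xt D.P D.P.nu (D.y (x, t)) t : ℂ) ^ 2 / 2
    + (Xt D.P D.P.nu (D.y (x, t)) t : ℂ) ^ 2 / 4) * D.psi t x) * hI

end Pool.Agent.H3R2
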